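import Pool.Agent.H634.CS.Stm

/-!
# Assembly
-/

set_option linter.all false

namespace Pool.Agent.H634.CS

universe u

open ZFSet Set

/-- The statement of the final theorem. -/
def Final : Prop :=
  ∃ M : Model.{u}, M.IsGB ∧ M.sets = Set.univ ∧ ∃ S : Sys.{u}, IsSys M S ∧ S.P.Nonempty ∧
    AdmitsForcing M S ∧ ∀ p ∈ S.P, ∃ G : Set ZFSet.{u}, p ∈ G ∧ IsGeneric M S.P S.le G ∧ (symExt M S G).IsGB ∧
      ∀ Q ∈ (symExt M S G).classes, ∀ leQ ∈ (symExt M S G).classes, IsPre Q leQ →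
        ∀ H : Set ZFSet.{u}, IsGeneric (symExt M S G) Q leQ H →
          G ∉ (classExt (symExt M S G) Q H).classes

theorem admits : AdmitsForcing M0.{u} S0 := by
  intro n φ Γ hΓ
  choose t ht using fun k => (hΓ k).1
  refine ⟨Tm.ap (.forc n φ) t, ?_⟩
  have : Γ = fun k => (t k).ev ∅ := funext ht
  rw [this]
  rfl

theorem symExt_eq (hN : S_NAMES.{u}) (hA : S_EXTA.{u}) (hB : S_EXTB.{u}) {C : Set ZFSet.{u}}
    (hC : Good C) : symExt M0 S0 (GC C) = N0 C := by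
  have h1 : (symExt M0 S0 (GC C)).sets = (N0 C).sets := by
    ext x
    simp only [symExt, N0, Set.mem_setOf_eq, Set.mem_univ, iff_true]
    exact ⟨chk x, hN.2.2.2.2.1 x, (hN.2.2.2.1 C x).symm⟩
  have h2 : (symExt M0 S0 (GC C)).classes = (N0 C).classes := by
    ext X
    simp only [symExt, N0, Set.mem_setOf_eq]
    constructor
    · rintro ⟨Γ, hΓ, rfl⟩
      exact hA C Γ hC hΓ
    · rintro ⟨t, b, rfl⟩
      exact hB C t b hC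
  generalize symExt M0 S0 (GC C) = A at h1 h2
  generalize N0 C = B at h1 h2
  cases A; cases B
  simp only at h1 h2
  rw [h1, h2]

theorem final (hgood : S_GOOD.{u}) (hgb : S_GB.{u}) (hsys : S_SYS.{u}) (hgen : S_GENERIC.{u})
    (hN : S_NAMES.{u}) (hA : S_EXTA.{u}) (hB : S_EXTB.{u}) (hno : S_NOADD.{u}) :
    Final.{u} := by
  refine ⟨M0, hgb.1, rfl, S0, hsys, ⟨_, ⟨⟨∅, ∅, fun x hx => absurd hx (ZFSet.notMem_empty x)⟩, rfl⟩⟩,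
    admits, ?_⟩
  rintro p ⟨c, rfl⟩
  obtain ⟨C, hcC, hC⟩ := hgood c
  refine ⟨GC C, code_mem_GC.2 hcC, hgen C hC, ?_⟩
  rw [symExt_eq hN hA hB hC]
  refine ⟨hgb.2.1 C, ?_⟩
  rintro Q ⟨t1, b1, hQ⟩ leQ ⟨t2, b2, hle⟩ hpre H hH ⟨Γ, ⟨t3, b3, hΓ⟩, hΓ', hG⟩
  obtain ⟨-, -, hW, hNc, hmono⟩ := hgb
  let b : ZFSet.{u} := b1 ∪ b2 ∪ b3
  have hb1 : b1 ⊆ b := fun x hx => by simp [b, hx]
  have hb2 : b2 ⊆ b := fun x hx => by simp [b, hx]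
  have hb3 : b3 ⊆ b := fun x hx => by simp [b, hx]
  have hib : b ∉ b := ZFSet.mem_irrefl b
  refine hno (N0 C) (Wb C b) Q leQ H Γ C b (hNc C) ?_ (hW C b) (hmono C _ _ hb1 ⟨t1, hQ⟩)
    (hmono C _ _ hb2 ⟨t2, hle⟩) (hmono C _ _ hb3 ⟨t3, hΓ⟩) hpre hH ?_ ?_ hG.symm
  · rintro X ⟨t, rfl⟩
    exact ⟨t, b, rfl⟩
  · exact ⟨Tm.gen, {b}, rfl⟩
  · rintro ⟨t, ht⟩
    exact hC.col t b b hib ht

end Pool.Agent.H634.CS
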