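import Pool.Agent.H634.CS.Core

/-!
# Basic lemmas on semantic forcing and Borel statements
-/

set_option linter.all false

namespace Pool.Agent.H634.CS

universe u

open ZFSet Set

/-! ## Codes -/

/-- An injection of the natural numbers into the sets. -/
noncomputable def natV (n : ℕ) : ZFSet.{u} := ZFSet.vonNeumann (n : Ordinal.{u})

theorem natV_inj {m n : ℕ} : (natV m : ZFSet.{u}) = natV n ↔ m = n := by
  unfold natV
  constructor
  · intro h
    exact_mod_cast ZFSet.vonNeumann_injective h
  · rintro rfl; rfl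

theorem dense_univ : Dense (Set.univ : Set Cond.{u}) := fun c => ⟨c, le_refl c, trivial⟩

open Classical in
/-- Reindexing a family of dense sets by the sets. -/
theorem reindex {ι : Type*} (f : ι → ZFSet.{u}) (hf : Function.Injective f)
    (D : ι → Set Cond.{u}) (hD : ∀ i, Dense (D i)) :
    ∃ D' : ZFSet.{u} → Set Cond.{u}, (∀ x, Dense (D' x)) ∧ ∀ i, D' (f i) = D i := by
  refine ⟨fun x => if h : ∃ i, f i = x then D h.choose else Set.univ, ?_, ?_⟩
  · intro x
    by_cases h : ∃ i, f i = x
    · simp only [dif_pos h]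
      exact hD _
    · simp only [dif_neg h]
      exact dense_univ
  · intro i
    have h : ∃ j, f j = f i := ⟨i, rfl⟩
    simp only [dif_pos h]
    rw [hf h.choose_spec]

/-- A statement which follows from meeting a family of dense sets, indexed by a type that injects
into the sets, is forced. -/
theorem forc_of_family {ι : Type*} (f : ι → ZFSet.{u}) (hf : Function.Injective f)
    (D : ι → Set Cond.{u}) (hD : ∀ i, Dense (D i)) {c : Cond.{u}} {S : Set ZFSet.{u} → Prop}
    (h : ∀ C, InC c C → (∀ i, Met C (D i)) → S C) : Forc c S := by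
  obtain ⟨D', h1, h2⟩ := reindex f hf D hD
  exact ⟨D', h1, fun C hc hm => h C hc (fun i => by rw [← h2 i]; exact hm _)⟩

theorem Forc.mono {c d : Cond.{u}} {S : Set ZFSet.{u} → Prop} (hd : d ≤ c) (h : Forc c S) :
    Forc d S := by
  obtain ⟨D, h1, h2⟩ := h
  exact ⟨D, h1, fun C hC hm => h2 C (hC.mono hd) hm⟩

theorem Forc.imp {c : Cond.{u}} {S S' : Set ZFSet.{u} → Prop} (h : Forc c S)
    (hi : ∀ C, InC c C → S C → S' C) : Forc c S' := by
  obtain ⟨D, h1, h2⟩ := h
  exact ⟨D, h1, fun C hC hm => hi C hC (h2 C hC hm)⟩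

theorem forc_of_forall {c : Cond.{u}} {S : Set ZFSet.{u} → Prop} (h : ∀ C, InC c C → S C) :
    Forc c S :=
  ⟨fun _ => Set.univ, fun _ => dense_univ, fun C hC _ => h C hC⟩

theorem Forc.congr {c : Cond.{u}} {S S' : Set ZFSet.{u} → Prop} (h : ∀ C, S C ↔ S' C) :
    Forc c S ↔ Forc c S' :=
  ⟨fun h1 => h1.imp (fun C _ => (h C).1), fun h1 => h1.imp (fun C _ => (h C).2)⟩

/-- A statement forced pointwise is forced uniformly. -/
theorem Forc.all' {ι : Type*} (f : ι → ZFSet.{u}) (hf : Function.Injective f) {c : Cond.{u}}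
    {S : ι → Set ZFSet.{u} → Prop} (h : ∀ i, Forc c (S i)) : Forc c (fun C => ∀ i, S i C) := by
  choose D h1 h2 using h
  refine forc_of_family (ι := ι × ZFSet.{u}) (fun z => ZFSet.pair (f z.1) z.2) ?_
    (fun z => D z.1 z.2) (fun z => h1 _ _) ?_
  · intro z z' h
    have := ZFSet.pair_inj.1 h
    exact Prod.ext (hf this.1) this.2
  · intro C hC hm i
    exact h2 i C hC (fun x => hm (i, x))

theorem Forc.all {c : Cond.{u}} {S : ZFSet.{u} → Set ZFSet.{u} → Prop}
    (h : ∀ x, Forc c (S x)) : Forc c (fun C => ∀ x, S x C) :=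
  Forc.all' id Function.injective_id h

theorem Forc.and {c : Cond.{u}} {S S' : Set ZFSet.{u} → Prop} (h : Forc c S) (h' : Forc c S') :
    Forc c (fun C => S C ∧ S' C) := by
  have h2 : Forc c (fun C => ∀ b : Bool, (if b then S C else S' C)) := by
    refine Forc.all' (ι := Bool) (fun b => if b then ∅ else {∅}) ?_ ?_
    · intro a b hab
      have h3 : (∅ : ZFSet.{u}) ≠ {∅} := by
        intro h
        have := ZFSet.mem_singleton.2 (rfl : (∅ : ZFSet.{u}) = ∅)
        rw [← h] at this
        exact ZFSet.notMem_empty _ this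
      cases a <;> cases b <;> simp_all [h3.symm]
    · intro b
      cases b
      · simpa using h'
      · simpa using h
  exact h2.imp (fun C _ hb => ⟨by simpa using hb true, by simpa using hb false⟩)

/-! ## Borel statements -/

theorem Bor.congr {S S' : Set ZFSet.{u} → Prop} (h : Bor S) (he : ∀ C, S C ↔ S' C) : Bor S' := by
  have : S = S' := funext fun C => propext (he C)
  rw [← this]; exact h

theorem Bor.and {S S' : Set ZFSet.{u} → Prop} (h : Bor S) (h' : Bor S') :
    Bor (fun C => S C ∧ S' C) := by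
  classical
  have key : ∀ x : ZFSet.{u}, Bor (fun C => if x = ∅ then S C else S' C) := by
    intro x
    by_cases hx : x = ∅
    · simpa [hx] using h
    · simpa [hx] using h'
  refine (Bor.all key).congr (fun C => ⟨fun hC => ⟨?_, ?_⟩, fun hC x => ?_⟩)
  · simpa using hC ∅
  · have h3 : ({∅} : ZFSet.{u}) ≠ ∅ := by
      intro h
      have := ZFSet.mem_singleton.2 (rfl : (∅ : ZFSet.{u}) = ∅)
      rw [h] at this
      exact ZFSet.notMem_empty _ this
    simpa [h3] using hC {∅}
  · by_cases hx : x = ∅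
    · simpa [hx] using hC.1
    · simpa [hx] using hC.2

theorem Bor.or {S S' : Set ZFSet.{u} → Prop} (h : Bor S) (h' : Bor S') :
    Bor (fun C => S C ∨ S' C) :=
  (h.neg.and h'.neg).neg.congr (fun C => by tauto)

theorem Bor.imp {S S' : Set ZFSet.{u} → Prop} (h : Bor S) (h' : Bor S') :
    Bor (fun C => S C → S' C) :=
  (h.neg.or h').congr (fun C => by tauto)

theorem Bor.iff {S S' : Set ZFSet.{u} → Prop} (h : Bor S) (h' : Bor S') :
    Bor (fun C => S C ↔ S' C) :=
  ((h.imp h').and (h'.imp h)).congr (fun C => by tauto)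

theorem Bor.ex {S : ZFSet.{u} → Set ZFSet.{u} → Prop} (h : ∀ x, Bor (S x)) :
    Bor (fun C => ∃ x, S x C) :=
  (Bor.all (fun x => (h x).neg)).neg.congr (fun C => by push Not; rfl)

/-- Quantification over a proposition. -/
theorem Bor.pex {p : Prop} {S : p → Set ZFSet.{u} → Prop} (h : ∀ x, Bor (S x)) :
    Bor (fun C => ∃ x, S x C) := by
  by_cases hp : p
  · exact (h hp).congr (fun C => ⟨fun h => ⟨hp, h⟩, fun ⟨_, h⟩ => h⟩)
  · exact (Bor.const False).congr (fun C => ⟨fun h => h.elim, fun ⟨h, _⟩ => hp h⟩)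

theorem Bor.pall {p : Prop} {S : p → Set ZFSet.{u} → Prop} (h : ∀ x, Bor (S x)) :
    Bor (fun C => ∀ x, S x C) := by
  by_cases hp : p
  · exact (h hp).congr (fun C => ⟨fun h _ => h, fun h => h hp⟩)
  · exact (Bor.const True).congr (fun C => ⟨fun _ h => (hp h).elim, fun _ => trivial⟩)

/-- Quantification over a type that injects into the sets. -/
theorem Bor.allι {ι : Type*} (f : ι → ZFSet.{u}) (hf : Function.Injective f)
    {S : ι → Set ZFSet.{u} → Prop} (h : ∀ x, Bor (S x)) : Bor (fun C => ∀ x, S x C) := by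
  have key : ∀ x : ZFSet.{u}, Bor (fun C => ∀ i, f i = x → S i C) := by
    intro x
    by_cases hx : ∃ i, f i = x
    · obtain ⟨i, rfl⟩ := hx
      exact (h i).congr (fun C => ⟨fun h1 j hj => by rw [hf hj]; exact h1, fun h1 => h1 i rfl⟩)
    · exact (Bor.const True).congr (fun C => ⟨fun _ i hi => (hx ⟨i, hi⟩).elim, fun _ => trivial⟩)
  exact (Bor.all key).congr (fun C => ⟨fun h1 i => h1 (f i) i rfl, fun h1 x i _ => h1 i⟩)

theorem Bor.exι {ι : Type*} (f : ι → ZFSet.{u}) (hf : Function.Injective f)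
    {S : ι → Set ZFSet.{u} → Prop} (h : ∀ x, Bor (S x)) : Bor (fun C => ∃ x, S x C) :=
  (Bor.allι f hf (fun x => (h x).neg)).neg.congr (fun C => by push Not; rfl)

theorem code_injective : Function.Injective (code : Cond.{u} → ZFSet.{u}) :=
  fun _ _ h => code_inj.1 h

theorem bor_InC (c : Cond.{u}) : Bor (fun C => InC c C) := by
  unfold InC
  exact (Bor.all fun x => Bor.pall fun _ => Bor.atom x).and
    (Bor.all fun x => Bor.pall fun _ => (Bor.atom x).neg)

theorem borOp_const (X : Set ZFSet.{u}) : BorOp (fun _ => X) := fun z => Bor.const (z ∈ X)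

theorem borOp_id : BorOp (fun C : Set ZFSet.{u} => C) := fun z => Bor.atom z

end Pool.Agent.H634.CS
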