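import Pool.Agent.H634.CS.Stm

/-!
# Project CS, leaf BAIRE (helper230)
-/

set_option autoImplicit false
set_option linter.all false

namespace Pool.Agent.H634.CS

universe u

open ZFSet Set

namespace BAIREL

/-- The well-order of the universe. -/
def r : ZFSet.{u} → ZFSet.{u} → Prop :=
  InvImage (Prod.Lex (· < ·) (WellOrderingRel : ZFSet.{u} → ZFSet.{u} → Prop))
    (fun x => (x.rank, x))

theorem r_wf : WellFounded (r : ZFSet.{u} → ZFSet.{u} → Prop) := by
  refine InvImage.wf _ (WellFounded.prod_lex ?_ ?_)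
  · exact wellFounded_lt
  · exact IsWellFounded.wf

theorem r_iff {x y : ZFSet.{u}} : r x y ↔ x.rank < y.rank ∨ x.rank = y.rank ∧ WellOrderingRel x y := by
  unfold r InvImage
  rw [Prod.lex_def]

theorem r_tri (x y : ZFSet.{u}) : r x y ∨ x = y ∨ r y x := by
  rw [r_iff, r_iff]
  rcases lt_trichotomy x.rank y.rank with h | h | h
  · exact Or.inl (Or.inl h)
  · rcases trichotomous_of (WellOrderingRel : ZFSet.{u} → ZFSet.{u} → Prop) x y with h' | h' | h'
    · exact Or.inl (Or.inr ⟨h, h'⟩)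
    · exact Or.inr (Or.inl h')
    · exact Or.inr (Or.inr (Or.inr ⟨h.symm, h'⟩))
  · exact Or.inr (Or.inr (Or.inl h))

instance small_pred (x : ZFSet.{u}) : Small.{u} {y : ZFSet.{u} // r y x} := by
  refine small_of_injective (β := {y : ZFSet.{u} // y ∈ ZFSet.vonNeumann (Order.succ x.rank)})
    (f := fun y => ⟨y.1, ?_⟩) ?_
  · rw [ZFSet.mem_vonNeumann, Order.lt_succ_iff]
    rcases r_iff.1 y.2 with h | h
    · exact h.le
    · exact h.1.le
  · intro a b h
    have := congrArg Subtype.val h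
    exact Subtype.ext this

/-- The union of the first parts. -/
noncomputable def unA (c : Cond.{u}) (x : ZFSet.{u}) (prev : ∀ y, r y x → Cond.{u}) : ZFSet.{u} :=
  c.a ∪ ZFSet.sUnion (ZFSet.range (fun y : {y : ZFSet.{u} // r y x} => (prev y.1 y.2).a))

/-- The union of the second parts. -/
noncomputable def unB (c : Cond.{u}) (x : ZFSet.{u}) (prev : ∀ y, r y x → Cond.{u}) : ZFSet.{u} :=
  c.b ∪ ZFSet.sUnion (ZFSet.range (fun y : {y : ZFSet.{u} // r y x} => (prev y.1 y.2).b))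

theorem mem_unA {c : Cond.{u}} {x : ZFSet.{u}} {prev : ∀ y, r y x → Cond.{u}} {z : ZFSet.{u}} :
    z ∈ unA c x prev ↔ z ∈ c.a ∨ ∃ y, ∃ h : r y x, z ∈ (prev y h).a := by
  unfold unA
  rw [ZFSet.mem_union, ZFSet.mem_sUnion]
  constructor
  · rintro (h | ⟨w, hw, hz⟩)
    · exact Or.inl h
    · rw [ZFSet.mem_range] at hw
      obtain ⟨y, rfl⟩ := hw
      exact Or.inr ⟨y.1, y.2, hz⟩
  · rintro (h | ⟨y, h, hz⟩)
    · exact Or.inl h
    · exact Or.inr ⟨_, ZFSet.mem_range.2 ⟨⟨y, h⟩, rfl⟩, hz⟩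

theorem mem_unB {c : Cond.{u}} {x : ZFSet.{u}} {prev : ∀ y, r y x → Cond.{u}} {z : ZFSet.{u}} :
    z ∈ unB c x prev ↔ z ∈ c.b ∨ ∃ y, ∃ h : r y x, z ∈ (prev y h).b := by
  unfold unB
  rw [ZFSet.mem_union, ZFSet.mem_sUnion]
  constructor
  · rintro (h | ⟨w, hw, hz⟩)
    · exact Or.inl h
    · rw [ZFSet.mem_range] at hw
      obtain ⟨y, rfl⟩ := hw
      exact Or.inr ⟨y.1, y.2, hz⟩
  · rintro (h | ⟨y, h, hz⟩)
    · exact Or.inl h
    · exact Or.inr ⟨_, ZFSet.mem_range.2 ⟨⟨y, h⟩, rfl⟩, hz⟩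

open Classical in
/-- The step of the recursion. -/
noncomputable def step (D : ZFSet.{u} → Set Cond.{u}) (hD : ∀ x, Dense (D x)) (c : Cond.{u})
    (x : ZFSet.{u}) (prev : ∀ y, r y x → Cond.{u}) : Cond.{u} :=
  if h : ∀ z ∈ unA c x prev, z ∉ unB c x prev then
    (hD x ⟨unA c x prev, unB c x prev, h⟩).choose
  else (hD x c).choose

theorem step_spec (D : ZFSet.{u} → Set Cond.{u}) (hD : ∀ x, Dense (D x)) (c : Cond.{u})
    (x : ZFSet.{u}) (prev : ∀ y, r y x → Cond.{u})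
    (hdis : ∀ z ∈ unA c x prev, z ∉ unB c x prev) :
    step D hD c x prev ≤ c ∧ (∀ y (h : r y x), step D hD c x prev ≤ prev y h) ∧
      step D hD c x prev ∈ D x := by
  obtain ⟨s, hs⟩ : ∃ s : Cond.{u}, s = ⟨unA c x prev, unB c x prev, hdis⟩ := ⟨_, rfl⟩
  have he : step D hD c x prev = (hD x s).choose := by
    unfold step
    rw [dif_pos hdis, hs]
  have hspec := (hD x s).choose_spec
  rw [← he] at hspec
  have hsa : s.a = unA c x prev := by rw [hs]
  have hsb : s.b = unB c x prev := by rw [hs]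
  obtain ⟨g, hg⟩ : ∃ g, g = step D hD c x prev := ⟨_, rfl⟩
  rw [← hg] at hspec ⊢
  have h1 := Cond.le_def.1 hspec.1
  rw [hsa, hsb] at h1
  refine ⟨Cond.le_def.2 ⟨?_, ?_⟩, ?_, hspec.2⟩
  · intro z hz
    exact h1.1 z (mem_unA.2 (Or.inl hz))
  · intro z hz
    exact h1.2 z (mem_unB.2 (Or.inl hz))
  · intro y hy
    refine Cond.le_def.2 ⟨?_, ?_⟩
    · intro z hz
      exact h1.1 z (mem_unA.2 (Or.inr ⟨y, hy, hz⟩))
    · intro z hz
      exact h1.2 z (mem_unB.2 (Or.inr ⟨y, hy, hz⟩))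

/-- The sequence of conditions. -/
noncomputable def f (D : ZFSet.{u} → Set Cond.{u}) (hD : ∀ x, Dense (D x)) (c : Cond.{u}) :
    ZFSet.{u} → Cond.{u} :=
  r_wf.fix (step D hD c)

theorem f_eq (D : ZFSet.{u} → Set Cond.{u}) (hD : ∀ x, Dense (D x)) (c : Cond.{u})
    (x : ZFSet.{u}) : f D hD c x = step D hD c x (fun y _ => f D hD c y) :=
  r_wf.fix_eq (step D hD c) x

theorem exF (D : ZFSet.{u} → Set Cond.{u}) (hD : ∀ x, Dense (D x)) (c : Cond.{u}) :
    ∃ F : ZFSet.{u} → Cond.{u}, ∀ x, F x = step D hD c x (fun y _ => F y) :=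
  ⟨f D hD c, f_eq D hD c⟩

theorem main (D : ZFSet.{u} → Set Cond.{u}) (hD : ∀ x, Dense (D x)) (c : Cond.{u}) :
    ∃ F : ZFSet.{u} → Cond.{u}, ∀ x, F x ≤ c ∧ (∀ y, r y x → F x ≤ F y) ∧ F x ∈ D x := by
  obtain ⟨F, hF⟩ := exF D hD c
  refine ⟨F, ?_⟩
  intro x
  induction x using r_wf.induction with
  | h x ih =>
    have hdis : ∀ z ∈ unA c x (fun y _ => F y), z ∉ unB c x (fun y _ => F y) := by
      intro z hz hz'
      rcases mem_unA.1 hz with h1 | ⟨y, hy, h1⟩
      · rcases mem_unB.1 hz' with h2 | ⟨y', hy', h2⟩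
        · exact c.disj z h1 h2
        · exact (F y').disj z ((ih y' hy').1.1 z h1) h2
      · rcases mem_unB.1 hz' with h2 | ⟨y', hy', h2⟩
        · exact (F y).disj z h1 ((ih y hy).1.2 z h2)
        · rcases r_tri y y' with h | h | h
          · exact (F y').disj z (((ih y' hy').2.1 y h).1 z h1) h2
          · subst h
            exact (F y).disj z h1 h2
          · exact (F y).disj z h1 (((ih y hy).2.1 y' h).2 z h2)
    have h := step_spec D hD c x (fun y _ => F y) hdis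
    rw [← hF x] at h
    exact h

end BAIREL

theorem baire : S_BAIRE.{u} := by
  intro D hD c
  obtain ⟨F, hF⟩ := BAIREL.main D hD c
  have key : ∀ x, InC (F x) {z | ∃ y, z ∈ (F y).a} := by
    intro x
    refine ⟨fun z hz => ⟨x, hz⟩, ?_⟩
    rintro z hz ⟨y, hy⟩
    rcases BAIREL.r_tri x y with h | h | h
    · exact (F y).disj z hy (((hF y).2.1 x h).2 z hz)
    · subst h
      exact (F x).disj z hy hz
    · exact (F x).disj z (((hF x).2.1 y h).1 z hy) hz
  exact ⟨{z | ∃ y, z ∈ (F y).a}, (key ∅).mono (hF ∅).1,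
    fun x => ⟨F x, (hF x).2.2, key x⟩⟩

end Pool.Agent.H634.CS
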