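import Pool.Agent.H634.CS.Stm

set_option linter.all false

namespace Pool.Agent.H634.CS

universe u

open ZFSet Set

namespace BOP12L

theorem sat_bor (A : ℕ → Op.{u}) (hA : ∀ k, BorOp (A k)) : ∀ {n : ℕ} (φ : Fml n)
    (v : Fin n → ZFSet.{u}), Bor (fun C => Sat Set.univ (fun k => A k C) φ v)
  | _, .mem i j, v => (Bor.const (v i ∈ v j)).congr (fun C => by simp only [Sat])
  | _, .eq i j, v => (Bor.const (v i = v j)).congr (fun C => by simp only [Sat])
  | _, .cls k i, v => (hA k (v i)).congr (fun C => by simp only [Sat])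
  | _, .neg φ, v => (sat_bor A hA φ v).neg.congr (fun C => by simp only [Sat])
  | _, .and φ ψ, v =>
      ((sat_bor A hA φ v).and (sat_bor A hA ψ v)).congr (fun C => by simp only [Sat])
  | _, .all φ, v =>
      (Bor.all fun x => sat_bor A hA φ (Fin.cons x v)).congr
        (fun C => by simp only [Sat, Set.mem_univ, forall_true_left])

theorem bor_mem_GC (p : ZFSet.{u}) : Bor (fun C => p ∈ GC C) := by
  by_cases h : ∃ c : Cond.{u}, p = code c
  · obtain ⟨c, rfl⟩ := h
    exact (bor_InC c).congr (fun C => code_mem_GC.symm)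
  · refine (Bor.const False).congr (fun C => ⟨fun h' => h'.elim, ?_⟩)
    rintro ⟨c, -, hc⟩
    exact h ⟨c, hc⟩

theorem rank_lt {y y' p : ZFSet.{u}} (h : ZFSet.pair y' p ∈ y) : y'.rank < y.rank := by
  refine ((ZFSet.rank_lt_of_mem (ZFSet.mem_singleton.2 rfl)).trans
    (ZFSet.rank_lt_of_mem ?_)).trans (ZFSet.rank_lt_of_mem h)
  simp [ZFSet.pair]

theorem bor_val : ∀ y z : ZFSet.{u}, Bor (fun C => z = val (GC C) y) := by
  intro y
  induction hr : y.rank using WellFoundedLT.induction generalizing y with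
  | ind r ih =>
    intro z
    have key : ∀ w : ZFSet.{u}, Bor (fun C => (w ∈ z ↔
        ∃ y' p, ∃ _ : ZFSet.pair y' p ∈ y, p ∈ GC C ∧ w = val (GC C) y')) := by
      intro w
      refine (Bor.const (w ∈ z)).iff (Bor.ex fun y' => Bor.ex fun p => Bor.pex fun h => ?_)
      exact (bor_mem_GC p).and (ih y'.rank (by rw [← hr]; exact rank_lt h) y' rfl w)
    refine (Bor.all key).congr (fun C => ?_)
    constructor
    · intro h
      ext w
      rw [h w, mem_val]
      simp only [exists_prop]
    · intro h w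
      rw [h, mem_val]
      simp only [exists_prop]

end BOP12L

theorem bop1 : S_BOP1.{u} := by
  refine ⟨?_, fun A hA n φ v => BOP12L.sat_bor A hA φ v⟩
  intro S hS b
  induction hS with
  | const c => exact Bor.const c
  | atom x =>
    exact ((Bor.atom x).and (Bor.const (InCol b x))).congr (fun C => Iff.rfl)
  | neg _ ih => exact ih.neg
  | all _ ih => exact Bor.all ih

theorem bop2 : S_BOP2.{u} := by
  refine ⟨BOP12L.bor_val, ?_, ?_⟩
  · intro Γ z
    have key : Bor (fun C => ∃ y p, ∃ _ : ZFSet.pair y p ∈ Γ, p ∈ GC C ∧ z = val (GC C) y) :=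
      Bor.ex fun y => Bor.ex fun p => Bor.pex fun _ =>
        (BOP12L.bor_mem_GC p).and (BOP12L.bor_val y z)
    refine key.congr (fun C => ?_)
    unfold valC
    simp only [exists_prop, Set.mem_setOf_eq]
  · intro R x
    exact Bor.exι code code_injective (fun c => (bor_InC c).and (Bor.const (R x c)))

end Pool.Agent.H634.CS
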