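import Pool.Agent.H634.CS.Stm

/-!
# BOP3: closure properties of the Borel operators, part 3
-/

set_option linter.all false

namespace Pool.Agent.H634.CS

universe u

open ZFSet Set

namespace BOP3L

theorem rank_lt {w r z : ZFSet.{u}} (h : ZFSet.pair w r ∈ z) : w.rank < z.rank := by
  refine ((ZFSet.rank_lt_of_mem (ZFSet.mem_singleton.2 rfl)).trans
    (ZFSet.rank_lt_of_mem ?_)).trans (ZFSet.rank_lt_of_mem h)
  simp [ZFSet.pair]

theorem bor_evF_aux {A : Op.{u}} (hA : BorOp A) (o : Ordinal.{u}) :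
    ∀ z t q : ZFSet.{u}, z.rank = o → Bor (fun C => evF (A C) z t q) := by
  induction o using WellFoundedLT.induction with
  | ind o ih =>
    intro z t q hz
    have ih' : ∀ w r : ZFSet.{u}, ZFSet.pair w r ∈ z → ∀ s q'' : ZFSet.{u},
        Bor (fun C => evF (A C) w s q'') := by
      intro w r h s q''
      exact ih w.rank (hz ▸ rank_lt h) w s q'' rfl
    have h1 : Bor (fun C => (∀ w r, ∀ h : ZFSet.pair w r ∈ z, ∀ q', ZFSet.pair q' q ∈ A C →
        ZFSet.pair q' r ∈ A C →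
        ∃ q'', ZFSet.pair q'' q' ∈ A C ∧ ∃ s, s ∈ t ∧ evF (A C) w s q'') ∧
        (∀ s, s ∈ t → ∀ q', ZFSet.pair q' q ∈ A C →
        ∃ q'', ZFSet.pair q'' q' ∈ A C ∧ ∃ w r, ∃ h : ZFSet.pair w r ∈ z,
          ZFSet.pair q'' r ∈ A C ∧ evF (A C) w s q'')) :=
      (Bor.all fun w => Bor.all fun r => Bor.pall fun h => Bor.all fun q' =>
        Bor.imp (hA _) (Bor.imp (hA _) (Bor.ex fun q'' => Bor.and (hA _)
          (Bor.ex fun s => Bor.and (Bor.const _) (ih' w r h s q''))))).and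
      (Bor.all fun s => Bor.imp (Bor.const _) (Bor.all fun q' => Bor.imp (hA _)
        (Bor.ex fun q'' => Bor.and (hA _) (Bor.ex fun w => Bor.ex fun r => Bor.pex fun h =>
          Bor.and (hA _) (ih' w r h s q'')))))
    refine h1.congr fun C => ?_
    rw [evF]

theorem bor_evF {A : Op.{u}} (hA : BorOp A) (z t q : ZFSet.{u}) :
    Bor (fun C => evF (A C) z t q) := bor_evF_aux hA z.rank z t q rfl

theorem bor_X5 {A B D : Op.{u}} (hA : BorOp A) (hB : BorOp B) (hD : BorOp D)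
    (v q : ZFSet.{u}) : Bor (fun C => q ∈ X5 (A C) (B C) (D C) v) :=
  ((hA q).and (Bor.ex fun z => Bor.ex fun r => (hD _).and ((hB _).and
    (bor_evF hB z v q)))).congr fun C => Iff.rfl

theorem bor_TT {A B D : Op.{u}} (hA : BorOp A) (hB : BorOp B) (hD : BorOp D)
    (q x : ZFSet.{u}) : Bor (fun C => TT (A C) (B C) (D C) q x) :=
  (Bor.all fun q' => Bor.imp (hB _) (Bor.ex fun q'' => (hB _).and
    (bor_X5 hA hB hD (kx x) q''))).congr fun C => Iff.rfl

end BOP3L

open BOP3L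

theorem bop3 : S_BOP3.{u} := by
  intro A hA k v w q
  match k with
  | 0 =>
    exact ((hA 0 q).and (Bor.ex fun s => (Bor.const (s ∈ w)).and
      (bor_evF (hA 1) v s q))).congr fun C => Iff.rfl
  | 1 =>
    exact ((hA 0 q).and (Bor.ex fun z => Bor.ex fun r => (Bor.const (ZFSet.pair z r ∈ v)).and
      ((hA 1 _).and (bor_evF (hA 1) z w q)))).congr fun C => Iff.rfl
  | 2 =>
    exact ((hA 0 q).and ((bor_evF (hA 1) v w q).or ((Bor.ex fun z => Bor.ex fun r =>
      (Bor.const (ZFSet.pair z r ∈ v)).and ((hA 1 (ZFSet.pair q r)).and (Bor.all fun q' =>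
        (hA 1 (ZFSet.pair q' q)).imp (Bor.all fun s => (Bor.const (s ∈ w)).imp
          (bor_evF (hA 1) z s q').neg)))).or
      (Bor.ex fun s => (Bor.const (s ∈ w)).and (Bor.all fun q' =>
        (hA 1 (ZFSet.pair q' q)).imp (Bor.all fun z => Bor.all fun r =>
          (Bor.const (ZFSet.pair z r ∈ v)).imp ((hA 1 (ZFSet.pair q' r)).imp
            (bor_evF (hA 1) z s q').neg))))))).congr fun C => Iff.rfl
  | 3 => exact (bor_X5 (hA 0) (hA 1) (hA 2) v q).congr fun C => Iff.rfl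
  | 4 =>
    exact ((hA 0 q).and ((hA 2 q).or (Bor.all fun q' =>
      (hA 1 (ZFSet.pair q' q)).imp (hA 2 q').neg))).congr fun C => Iff.rfl
  | 5 =>
    exact ((hA 0 q).and (Bor.ex fun x => (Bor.const (InCol {v} x)).and
      (((bor_TT (hA 0) (hA 1) (hA 2) q x).and (hA 3 x).neg).or
        ((Bor.all fun q' => (hA 1 (ZFSet.pair q' q)).imp
          (bor_TT (hA 0) (hA 1) (hA 2) q' x).neg).and (hA 3 x))))).congr fun C => Iff.rfl
  | (k + 6) =>
    exact ((Bor.const (InCol {v} q)).and (Bor.ex fun q' => (hA 1 (ZFSet.pair q' w)).and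
      (bor_TT (hA 0) (hA 1) (hA 2) q' q))).congr fun C => Iff.rfl

end Pool.Agent.H634.CS
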