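import Pool.Agent.H634.CS.Stm

/-!
# Project CS: existence of sufficiently generic classes
-/

set_option linter.all false

namespace Pool.Agent.H634.CS

universe u

open ZFSet Set

namespace EXGENL

open Classical in
/-- a chosen witnessing family -/
noncomputable def wit (d : Cond.{u}) (S : Set ZFSet.{u} → Prop) : ZFSet.{u} → Set Cond.{u} :=
  if h : Forc d S then h.choose else fun _ => Set.univ

theorem wit_dense (d : Cond.{u}) (S : Set ZFSet.{u} → Prop) (x : ZFSet.{u}) :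
    Dense (wit d S x) := by
  unfold wit
  by_cases h : Forc d S
  · rw [dif_pos h]
    exact h.choose_spec.1 x
  · rw [dif_neg h]
    exact dense_univ

theorem wit_spec (d : Cond.{u}) (S : Set ZFSet.{u} → Prop) (h : Forc d S) (C : Set ZFSet.{u})
    (hC : InC d C) (hm : ∀ x, Met C (wit d S x)) : S C := by
  refine h.choose_spec.2 C hC fun x => ?_
  have h1 := hm x
  unfold wit at h1
  rw [dif_pos h] at h1
  exact h1

/-- the family of all dense sets -/
noncomputable def fam {ι : Type (u + 1)} (S : ι → Set ZFSet.{u} → Prop) (D : ι → Set Cond.{u})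
    (i : ι) (d : Cond.{u}) (x : ZFSet.{u}) : ℕ → Set Cond.{u}
  | 0 => D i
  | 1 => {d | Forc d (S i) ∨ Forc d (fun C => ¬ S i C)}
  | 2 => wit d (S i) x
  | _ => wit d (fun C => ¬ S i C) x

end EXGENL

open EXGENL

theorem exgen (h1 : S_BAIRE.{u}) (h2 : S_DECIDE.{u}) : S_EXGEN.{u} := by
  intro ι f hf S hS D hD c
  have hdense : ∀ z : ι × Cond.{u} × ZFSet.{u} × ℕ,
      Dense (fam S D z.1 z.2.1 z.2.2.1 z.2.2.2) := by
    rintro ⟨i, d, x, k⟩
    match k with
    | 0 => exact hD i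
    | 1 => exact fun c' => h2 (S i) (hS i) c'
    | 2 => exact wit_dense d (S i) x
    | (k + 3) => exact wit_dense d (fun C => ¬ S i C) x
  have hinj : Function.Injective (fun z : ι × Cond.{u} × ZFSet.{u} × ℕ =>
      ZFSet.pair (ZFSet.pair (f z.1) (code z.2.1)) (ZFSet.pair z.2.2.1 (natV z.2.2.2))) := by
    rintro ⟨i, d, x, k⟩ ⟨i', d', x', k'⟩ h
    obtain ⟨h3, h4⟩ := ZFSet.pair_inj.1 h
    obtain ⟨h5, h6⟩ := ZFSet.pair_inj.1 h3
    obtain ⟨h7, h8⟩ := ZFSet.pair_inj.1 h4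
    have e1 : i = i' := hf h5
    have e2 : d = d' := code_inj.1 h6
    have e3 : x = x' := h7
    have e4 : k = k' := natV_inj.1 h8
    rw [e1, e2, e3, e4]
  obtain ⟨D', hD', hfam⟩ := reindex _ hinj
    (fun z : ι × Cond.{u} × ZFSet.{u} × ℕ => fam S D z.1 z.2.1 z.2.2.1 z.2.2.2) hdense
  obtain ⟨C, hC, hmet⟩ := h1 D' hD' c
  have hm : ∀ (i : ι) (d : Cond.{u}) (x : ZFSet.{u}) (k : ℕ), Met C (fam S D i d x k) := by
    intro i d x k
    have h3 := hfam (i, d, x, k)
    have h4 := hmet (ZFSet.pair (ZFSet.pair (f i) (code d)) (ZFSet.pair x (natV k)))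
    dsimp only at h3
    rw [h3] at h4
    exact h4
  have hpos : ∀ (i : ι) (d : Cond.{u}), InC d C → Forc d (S i) → S i C := fun i d hd hF =>
    wit_spec d (S i) hF C hd fun x => hm i d x 2
  have hneg : ∀ (i : ι) (d : Cond.{u}), InC d C → Forc d (fun C => ¬ S i C) → ¬ S i C :=
    fun i d hd hF => wit_spec d (fun C => ¬ S i C) hF C hd fun x => hm i d x 3
  refine ⟨C, hC, fun i => hm i c ∅ 0, fun i => ⟨?_, ?_⟩⟩
  · intro hSC
    obtain ⟨d, hd, hdC⟩ := hm i c ∅ 1
    rcases hd with hd | hd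
    · exact ⟨d, hdC, hd⟩
    · exact absurd hSC (hneg i d hdC hd)
  · rintro ⟨d, hdC, hd⟩
    exact hpos i d hdC hd

end Pool.Agent.H634.CS
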