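import Pool.Agent.H634.CS.Stm

/-!
# Project CS (helper634), leaf EXTA: classes of the symmetric extension, first inclusion (helper161)
-/

set_option linter.all false

namespace Pool.Agent.H634.CS

universe u

open ZFSet Set

/-- EXTA -/
theorem exta (hB : S_BEV.{u}) (hN : S_NAMES.{u}) (hR : S_RESTRICT.{u}) : S_EXTA.{u} := by
  intro C Γ hC hΓ
  obtain ⟨⟨t0, rfl⟩, hnm, b, _, hb⟩ := hΓ
  obtain ⟨_, hN2, _, _, _, hN6⟩ := hN
  have hnm' : ∀ z ∈ t0.ev ∅, ∃ y p, IsName Pcl y ∧ p ∈ Pcl ∧ z = ZFSet.pair y p := by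
    intro z hz
    obtain ⟨y, p, h1, h2, h3⟩ := hnm z hz
    exact ⟨y, p, hN6 y h1, h2, h3⟩
  refine ⟨.ap (.symv b) (fun _ => t0), b, ?_⟩
  have htr : ∀ x : ZFSet.{u}, x ∈ valC (GC C) (t0.ev ∅) ↔
      ∃ c : Cond.{u}, InC c C ∧ Forc c (fun X => x ∈ valC (GC X) (t0.ev ∅)) :=
    fun x => hC.truth (.ap .valP (fun _ => t0)) x
  have hbor : ∀ x : ZFSet.{u}, Bor (fun X => x ∈ valC (GC X) (t0.ev ∅)) :=
    fun x => hB (.ap .valP (fun _ => t0)) x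
  ext x
  rw [htr]
  constructor
  · rintro ⟨c, hc, hf⟩
    refine ⟨rs b c, (inC_rsS (rs_rs b c)).2 (hc.mono (le_rs b c)), rs_rs b c, ?_⟩
    refine hR _ (hbor x) b ?_ c hf
    intro e he X
    have h1 := hN2 e X (t0.ev ∅) hnm'
    have h2 : actC (autF e) (t0.ev ∅) = t0.ev ∅ := hb e he
    rw [h2] at h1
    rw [h1]
  · rintro ⟨c, hc, hr, hf⟩
    exact ⟨c, (inC_rsS hr).1 hc, hf⟩

end Pool.Agent.H634.CS
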