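import Pool.Agent.H634.CS.Stm

/-!
# EXTB : the classes of the form `t.ev (rsS b C)` are classes of the symmetric extension
-/

set_option autoImplicit false

namespace Pool.Agent.H634.CS

universe u

open ZFSet Set

namespace EXTBL

theorem rsS_flipS {b e : ZFSet.{u}} (he : e ∈ baseF b) (X : Set ZFSet.{u}) :
    rsS b (flipS e X) = rsS b X := by
  ext x
  have h := he x
  simp only [rsS, mem_flipS, Set.mem_ofPred_eq]
  tauto

theorem forc_flip (hF : S_FLIP.{u}) {b e : ZFSet.{u}} (he : e ∈ baseF b) (t : Tm.{u})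
    (x : ZFSet.{u}) (c : Cond.{u}) (h : Forc c (fun X => x ∈ t.ev (rsS b X))) :
    Forc (flip e c) (fun X => x ∈ t.ev (rsS b X)) := by
  have h1 := hF e c _ h
  refine h1.imp fun X _ hX => ?_
  have hX' : x ∈ t.ev (rsS b (flipS e X)) := hX
  rwa [rsS_flipS he] at hX'

/-- the class name -/
def Nm (t : Tm.{u}) (b : ZFSet.{u}) : Set ZFSet.{u} :=
  {z | ∃ (x : ZFSet.{u}) (c : Cond.{u}), Forc c (fun X => x ∈ t.ev (rsS b X)) ∧
    z = ZFSet.pair (chk x) (code c)}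

end EXTBL

open EXTBL

theorem extb (hN : S_NAMES.{u}) (hF : S_FLIP.{u}) : S_EXTB.{u} := by
  intro C t b hC
  obtain ⟨-, -, n3, n4, n5, -⟩ := hN
  refine ⟨Nm t b, ⟨?_, ?_, b, Set.mem_univ b, ?_⟩, ?_⟩
  · exact ⟨Tm.ap Idx.nm (fun _ => Tm.ap (Idx.restr b) (fun _ => t)), rfl⟩
  · rintro z ⟨x, c, -, rfl⟩
    exact ⟨chk x, code c, n5 x, ⟨c, rfl⟩, rfl⟩
  · intro e he
    have he' : e ∈ baseF b := he
    ext z
    constructor
    · rintro ⟨y, p, ⟨x, c, hf, hyp⟩, rfl⟩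
      obtain ⟨rfl, rfl⟩ := ZFSet.pair_inj.1 hyp
      refine ⟨x, flip e c, forc_flip hF he' t x c hf, ?_⟩
      show ZFSet.pair (act (autF e) (chk x)) (autF e (code c)) = _
      rw [n3, autF_code]
    · rintro ⟨x, c, hf, rfl⟩
      refine ⟨chk x, code (flip e c), ⟨x, flip e c, forc_flip hF he' t x c hf, rfl⟩, ?_⟩
      show _ = ZFSet.pair (act (autF e) (chk x)) (autF e (code (flip e c)))
      rw [n3, autF_code, flip_flip]
  · have htr := fun x => hC.truth (Tm.ap (Idx.restr b) (fun _ => t)) x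
    ext z
    have h1 : z ∈ t.ev (rsS b C) ↔
        ∃ c : Cond.{u}, InC c C ∧ Forc c (fun X => z ∈ t.ev (rsS b X)) := htr z
    rw [h1]
    constructor
    · rintro ⟨c, hc, hf⟩
      exact ⟨chk z, code c, ⟨z, c, hf, rfl⟩, code_mem_GC.2 hc, (n4 C z).symm⟩
    · rintro ⟨y, p, ⟨x, c, hf, hyp⟩, hp, rfl⟩
      obtain ⟨rfl, rfl⟩ := ZFSet.pair_inj.1 hyp
      rw [n4]
      exact ⟨c, code_mem_GC.1 hp, hf⟩

end Pool.Agent.H634.CS
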