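import Pool.Agent.H634.CS.Stm

/-!
# Project CS (helper634), leaf GB: the axioms of Goedel-Bernays class theory (helper161)
-/

set_option linter.all false

namespace Pool.Agent.H634.CS

universe u

open ZFSet Set

namespace GBL

theorem isGB_of (M : Model.{u}) (hs : M.sets = Set.univ)
    (h1 : ∀ x : ZFSet.{u}, {y | y ∈ x} ∈ M.classes)
    (h2 : ∀ (n : ℕ) (φ : Fml (n + 1)) (A : ℕ → Set ZFSet.{u}) (v : Fin n → ZFSet.{u}),
      (∀ k, A k ∈ M.classes) → {x | Sat Set.univ A φ (Fin.cons x v)} ∈ M.classes) : M.IsGB where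
  trans := fun x _ y _ => by rw [hs]; exact Set.mem_univ y
  sub := fun A _ x _ => by rw [hs]; exact Set.mem_univ x
  ofSet := fun x _ => h1 x
  omega := by rw [hs]; exact Set.mem_univ _
  pair := fun x _ y _ => by rw [hs]; exact Set.mem_univ _
  union := fun x _ => by rw [hs]; exact Set.mem_univ _
  power := fun x _ => ⟨ZFSet.powerset x, by rw [hs]; exact Set.mem_univ _,
    fun z _ => ZFSet.mem_powerset⟩
  repl := by
    intro F _ hF a _
    refine ⟨ZFSet.range (fun z : {x : {x : ZFSet.{u} // x ∈ a} //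
      ∃ y : ZFSet.{u}, ZFSet.pair x.1 y ∈ F} => z.2.choose), by rw [hs]; exact Set.mem_univ _, ?_⟩
    intro y
    rw [ZFSet.mem_range]
    constructor
    · rintro ⟨⟨⟨x, hx⟩, h⟩, e⟩
      refine ⟨x, hx, ?_⟩
      rw [← e]
      exact h.choose_spec
    · rintro ⟨x, hx, h⟩
      have hex : ∃ y : ZFSet.{u}, ZFSet.pair x y ∈ F := ⟨y, h⟩
      exact ⟨⟨⟨x, hx⟩, hex⟩, hF _ _ _ hex.choose_spec h⟩
  compr := by
    intro n φ A v hA _
    have := h2 n φ A v hA
    rw [hs]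
    have e : {x | x ∈ (Set.univ : Set ZFSet.{u}) ∧ Sat Set.univ A φ (Fin.cons x v)} =
        {x | Sat Set.univ A φ (Fin.cons x v)} := by
      ext x
      exact ⟨fun h => h.2, fun h => ⟨Set.mem_univ x, h⟩⟩
    rw [e]
    exact this

theorem ev_fo (n : ℕ) (φ : Fml (n + 1)) (v : Fin n → ZFSet.{u}) (t : ℕ → Tm.{u})
    (C : Set ZFSet.{u}) : (Tm.ap (.fo n φ v) t).ev C =
      {x | Sat Set.univ (fun k => (t k).ev C) φ (Fin.cons x v)} := rfl

theorem ev_pw (k : ℕ) (v w : ZFSet.{u}) (t : ℕ → Tm.{u}) (C : Set ZFSet.{u}) :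
    (Tm.ap (.pw k v w) t).ev C = pwEv k v w (fun j => (t j).ev C) := rfl

theorem ev_restr (b : ZFSet.{u}) (t : Tm.{u}) (C : Set ZFSet.{u}) :
    (Tm.ap (.restr b) (fun _ => t)).ev C = t.ev (rsS b C) := rfl

theorem rsS_rsS {b c : ZFSet.{u}} (h : b ⊆ c) (C : Set ZFSet.{u}) :
    rsS b (rsS c C) = rsS b C := by
  ext x
  constructor
  · rintro ⟨hx, hb⟩
    exact ⟨hx.1, hb⟩
  · rintro ⟨hx, i, hi, y, e⟩
    exact ⟨⟨hx, i, h hi, y, e⟩, i, hi, y, e⟩

theorem wb_mono (C : Set ZFSet.{u}) (b c : ZFSet.{u}) (h : b ⊆ c) : Wb C b ⊆ Wb C c := by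
  rintro X ⟨t, rfl⟩
  exact ⟨Tm.ap (.restr b) (fun _ => t), by rw [ev_restr, rsS_rsS h]⟩

/-- finitely or countably many classes of `N0 C` are classes of one `Wb C b` -/
theorem common (C : Set ZFSet.{u}) (A : ℕ → Set ZFSet.{u}) (hA : ∀ j, A j ∈ (N0 C).classes) :
    ∃ (b : ZFSet.{u}) (t : ℕ → Tm.{u}), ∀ j, A j = (t j).ev (rsS b C) := by
  choose t b h using hA
  refine ⟨ZFSet.iUnion b, fun j => Tm.ap (.restr (b j)) (fun _ => t j), fun j => ?_⟩
  rw [ev_restr, rsS_rsS (ZFSet.subset_iUnion b j)]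
  exact h j

end GBL

/-- GB -/
theorem gb : S_GB := by
  refine ⟨GBL.isGB_of M0 rfl (fun x => ⟨.cst x, rfl⟩) ?_, fun C => GBL.isGB_of (N0 C) rfl
    (fun x => ⟨.cst x, ∅, rfl⟩) ?_, ?_, ?_, GBL.wb_mono⟩
  · intro n φ A v hA
    choose t ht using hA
    refine ⟨.ap (.fo n φ v) t, ?_⟩
    have e : A = fun k => (t k).ev ∅ := funext ht
    rw [e]
    rfl
  · intro n φ A v hA
    obtain ⟨b, t, ht⟩ := GBL.common C A hA
    refine ⟨.ap (.fo n φ v) t, b, ?_⟩
    have e : A = fun k => (t k).ev (rsS b C) := funext ht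
    rw [e]
    rfl
  · intro C b k v w A hA
    choose t ht using hA
    refine ⟨.ap (.pw k v w) t, ?_⟩
    have e : A = fun k => (t k).ev (rsS b C) := funext ht
    rw [e]
    rfl
  · intro C k v w A hA
    obtain ⟨b, t, ht⟩ := GBL.common C A hA
    refine ⟨.ap (.pw k v w) t, b, ?_⟩
    have e : A = fun k => (t k).ev (rsS b C) := funext ht
    rw [e]
    rfl

end Pool.Agent.H634.CS
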