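import Pool.Agent.H634.CS.Stm

/-!
# Project CS (helper634), leaf GOOD: existence of good generic classes (helper161)
-/

set_option linter.all false

namespace Pool.Agent.H634.CS

universe u

open ZFSet Set

namespace GOODL

/-- a set does not contain all pairs with first component `i` -/
theorem fresh (i s : ZFSet.{u}) : ZFSet.pair i s ∉ s := by
  intro h
  have h1 : s.rank < ({i, s} : ZFSet.{u}).rank :=
    ZFSet.rank_lt_of_mem (ZFSet.mem_pair.2 (Or.inr rfl))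
  have h2 : ({i, s} : ZFSet.{u}).rank < (ZFSet.pair i s).rank := by
    refine ZFSet.rank_lt_of_mem ?_
    rw [ZFSet.pair]
    exact ZFSet.mem_pair.2 (Or.inr rfl)
  exact lt_irrefl _ ((h1.trans h2).trans (ZFSet.rank_lt_of_mem h))

/-- adding a point to the first component of the union of two compatible conditions -/
theorem ext_a {p s q : Cond.{u}} (hp : q ≤ p) (hs : q ≤ s) {x : ZFSet.{u}}
    (h1 : x ∉ p.b) (h2 : x ∉ s.b) : ∃ r : Cond.{u}, r ≤ p ∧ r ≤ s ∧ x ∈ r.a := by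
  refine ⟨⟨insert x (p.a ∪ s.a), p.b ∪ s.b, ?_⟩, ?_, ?_, ?_⟩
  · intro y hy hy'
    rw [ZFSet.mem_insert_iff, ZFSet.mem_union] at hy
    rw [ZFSet.mem_union] at hy'
    have hyb : y ∈ q.b := by
      rcases hy' with h | h
      · exact hp.2 y h
      · exact hs.2 y h
    rcases hy with rfl | h | h
    · exact hy'.elim h1 h2
    · exact q.disj y (hp.1 y h) hyb
    · exact q.disj y (hs.1 y h) hyb
  · exact ⟨fun y hy => ZFSet.mem_insert_iff.2 (Or.inr (ZFSet.mem_union.2 (Or.inl hy))),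
      fun y hy => ZFSet.mem_union.2 (Or.inl hy)⟩
  · exact ⟨fun y hy => ZFSet.mem_insert_iff.2 (Or.inr (ZFSet.mem_union.2 (Or.inr hy))),
      fun y hy => ZFSet.mem_union.2 (Or.inr hy)⟩
  · exact ZFSet.mem_insert_iff.2 (Or.inl rfl)

/-- adding a point to the second component of the union of two compatible conditions -/
theorem ext_b {p s q : Cond.{u}} (hp : q ≤ p) (hs : q ≤ s) {x : ZFSet.{u}}
    (h1 : x ∉ p.a) (h2 : x ∉ s.a) : ∃ r : Cond.{u}, r ≤ p ∧ r ≤ s ∧ x ∈ r.b := by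
  refine ⟨⟨p.a ∪ s.a, insert x (p.b ∪ s.b), ?_⟩, ?_, ?_, ?_⟩
  · intro y hy hy'
    rw [ZFSet.mem_insert_iff, ZFSet.mem_union] at hy'
    rw [ZFSet.mem_union] at hy
    have hya : y ∈ q.a := by
      rcases hy with h | h
      · exact hp.1 y h
      · exact hs.1 y h
    rcases hy' with rfl | h | h
    · exact hy.elim h1 h2
    · exact q.disj y hya (hp.2 y h)
    · exact q.disj y hya (hs.2 y h)
  · exact ⟨fun y hy => ZFSet.mem_union.2 (Or.inl hy),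
      fun y hy => ZFSet.mem_insert_iff.2 (Or.inr (ZFSet.mem_union.2 (Or.inl hy)))⟩
  · exact ⟨fun y hy => ZFSet.mem_union.2 (Or.inr hy),
      fun y hy => ZFSet.mem_insert_iff.2 (Or.inr (ZFSet.mem_union.2 (Or.inr hy)))⟩
  · exact ZFSet.mem_insert_iff.2 (Or.inl rfl)

theorem rsS_flipS {b e : ZFSet.{u}} (he : e ∈ baseF b) (C : Set ZFSet.{u}) :
    rsS b (flipS e C) = rsS b C := by
  ext x
  have h := he x
  simp only [rsS, Set.mem_setOf_eq, mem_flipS]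
  tauto

/-- the dense sets which make the columns independent -/
def E (t : Tm.{u}) (b i : ZFSet.{u}) : Set Cond.{u} :=
  {c | ∃ x, InCol {i} x ∧ ((x ∈ c.a ∧ Forc c (fun C => ¬ x ∈ t.ev (rsS b C))) ∨
    (x ∈ c.b ∧ Forc c (fun C => x ∈ t.ev (rsS b C))))}

theorem dense_E (hB : S_BEV.{u}) (h3 : S_DECIDE.{u}) (h4 : S_RESTRICT.{u}) (t : Tm.{u})
    {b i : ZFSet.{u}} (hi : i ∉ b) : Dense (E t b i) := by
  intro p
  obtain ⟨x, hx⟩ : ∃ x, x = ZFSet.pair i (p.a ∪ p.b) := ⟨_, rfl⟩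
  have hxp : x ∉ p.a ∪ p.b := by
    rw [hx]
    exact fresh i _
  rw [ZFSet.mem_union] at hxp
  have hxa : x ∉ p.a := fun h => hxp (Or.inl h)
  have hxb : x ∉ p.b := fun h => hxp (Or.inr h)
  have hcol : InCol {i} x := ⟨i, ZFSet.mem_singleton.2 rfl, _, hx⟩
  have hnot : ¬ InCol b x := by
    rintro ⟨j, hj, y, e⟩
    rw [hx] at e
    exact hi ((ZFSet.pair_inj.1 e).1 ▸ hj)
  have hbor : Bor (fun C => x ∈ t.ev (rsS b C)) := hB (.ap (.restr b) (fun _ => t)) x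
  have hinv : ∀ e ∈ baseF b, ∀ C, (x ∈ t.ev (rsS b (flipS e C)) ↔ x ∈ t.ev (rsS b C)) := by
    intro e he C
    rw [rsS_flipS he]
  obtain ⟨q, hq, hd | hd⟩ := h3 _ hbor p
  · have h6 := h4 _ hbor b hinv q hd
    obtain ⟨r, hr1, hr2, hr3⟩ := ext_b (x := x) hq (le_rs b q) hxa
      (fun h => hnot (mem_rs_a.1 h).2)
    exact ⟨r, hr1, x, hcol, Or.inr ⟨hr3, h6.mono hr2⟩⟩
  · have h6 := h4 _ hbor.neg b (fun e he C => not_congr (hinv e he C)) q hd
    obtain ⟨r, hr1, hr2, hr3⟩ := ext_a (x := x) hq (le_rs b q) hxb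
      (fun h => hnot (mem_rs_b.1 h).2)
    exact ⟨r, hr1, x, hcol, Or.inl ⟨hr3, h6.mono hr2⟩⟩

open Classical in
/-- the family of dense sets -/
noncomputable def DD (z : Tm.{u} × ZFSet.{u} × ZFSet.{u}) : Set Cond.{u} :=
  if z.2.2 ∈ z.2.1 then
    (if Dense {d : Cond.{u} | code d ∈ z.1.ev ∅} then {d : Cond.{u} | code d ∈ z.1.ev ∅}
      else Set.univ)
  else E z.1 z.2.1 z.2.2

theorem dense_DD (hB : S_BEV.{u}) (h3 : S_DECIDE.{u}) (h4 : S_RESTRICT.{u})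
    (z : Tm.{u} × ZFSet.{u} × ZFSet.{u}) : Dense (DD z) := by
  unfold DD
  by_cases h : z.2.2 ∈ z.2.1
  · rw [if_pos h]
    by_cases h' : Dense {d : Cond.{u} | code d ∈ z.1.ev ∅}
    · rw [if_pos h']
      exact h'
    · rw [if_neg h']
      exact dense_univ
  · rw [if_neg h]
    exact dense_E hB h3 h4 z.1 h

end GOODL

/-- GOOD -/
theorem good (hB : S_BEV.{u}) (h1 : S_EXGEN.{u}) (h2 : S_INJ.{u}) (h3 : S_DECIDE.{u})
    (h4 : S_RESTRICT.{u}) (h5 : S_INCOMPAT.{u}) : S_GOOD.{u} := by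
  intro c
  obtain ⟨g, hg⟩ := h2
  obtain ⟨C, hC, hmet, htr⟩ := h1 (Tm.{u} × ZFSet.{u} × ZFSet.{u})
    (fun z => ZFSet.pair (g z.1) (ZFSet.pair z.2.1 z.2.2))
    (by
      rintro ⟨t, x, y⟩ ⟨t', x', y'⟩ h
      have h6 := ZFSet.pair_inj.1 h
      have h7 := ZFSet.pair_inj.1 h6.2
      exact Prod.ext (hg h6.1) (Prod.ext h7.1 h7.2))
    (fun z C => z.2.1 ∈ z.1.ev C) (fun z => hB z.1 z.2.1) GOODL.DD
    (GOODL.dense_DD hB h3 h4) c
  have htruth : ∀ (t : Tm.{u}) (x : ZFSet.{u}),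
      x ∈ t.ev C ↔ ∃ c : Cond.{u}, InC c C ∧ Forc c (fun X => x ∈ t.ev X) :=
    fun t x => htr (t, x, ∅)
  refine ⟨C, hC, ?_, htruth, ?_⟩
  · intro t ht
    have h6 := hmet (t, {∅}, ∅)
    have h7 : Dense {d : Cond.{u} | code d ∈ t.ev ∅} := ht
    unfold GOODL.DD at h6
    rw [if_pos (ZFSet.mem_singleton.2 rfl), if_pos h7] at h6
    obtain ⟨d, hd, hd'⟩ := h6
    exact ⟨d, hd', hd⟩
  · intro t b i hi heq
    have h6 := hmet (t, b, i)
    unfold GOODL.DD at h6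
    rw [if_neg hi] at h6
    obtain ⟨d, ⟨x, hx, h | h⟩, hd⟩ := h6
    · have h7 : x ∈ rsS {i} C := ⟨hd.1 x h.1, hx⟩
      rw [heq] at h7
      obtain ⟨e, he, hf⟩ := (htruth (.ap (.restr b) (fun _ => t)) x).1 h7
      obtain ⟨r, hr1, hr2, _⟩ := he.join hd
      exact h5 e d r (fun X => x ∈ t.ev (rsS b X)) hr1 hr2 hf h.2
    · have h7 : x ∈ t.ev (rsS b C) :=
        (htruth (.ap (.restr b) (fun _ => t)) x).2 ⟨d, hd, h.2⟩
      rw [← heq] at h7
      exact hd.2 x h.1 h7.1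

end Pool.Agent.H634.CS
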