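import Pool.Agent.H634.CS.Stm

set_option linter.all false

namespace Pool.Agent.H634.CS

universe u

open ZFSet Set

namespace INJL

/-- numbers of formulas -/
def g : {n : ℕ} → Fml n → ℕ
  | _, .mem i j => Nat.pair 0 (Nat.pair i j)
  | _, .eq i j => Nat.pair 1 (Nat.pair i j)
  | _, .cls k i => Nat.pair 2 (Nat.pair k i)
  | _, .neg φ => Nat.pair 3 (g φ)
  | _, .and φ ψ => Nat.pair 4 (Nat.pair (g φ) (g ψ))
  | _, .all φ => Nat.pair 5 (g φ)

theorem g_inj {n : ℕ} (φ : Fml n) : ∀ ψ : Fml n, g φ = g ψ → φ = ψ := by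
  induction φ with
  | mem i j =>
    intro ψ h
    cases ψ <;> simp [g, Nat.pair_eq_pair, Fin.val_inj] at h ⊢
    exact h
  | eq i j =>
    intro ψ h
    cases ψ <;> simp [g, Nat.pair_eq_pair, Fin.val_inj] at h ⊢
    exact h
  | cls k i =>
    intro ψ h
    cases ψ <;> simp [g, Nat.pair_eq_pair, Fin.val_inj] at h ⊢
    exact h
  | neg φ ih =>
    intro ψ h
    cases ψ <;> simp [g, Nat.pair_eq_pair] at h ⊢
    exact ih _ h
  | and φ ψ ih1 ih2 =>
    intro ψ h
    cases ψ <;> simp [g, Nat.pair_eq_pair] at h ⊢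
    exact ⟨ih1 _ h.1, ih2 _ h.2⟩
  | all φ ih =>
    intro ψ h
    cases ψ <;> simp [g, Nat.pair_eq_pair] at h ⊢
    exact ih _ h

/-- codes of sequences -/
noncomputable def sq (v : ℕ → ZFSet.{u}) : ZFSet.{u} :=
  ZFSet.range (fun n : ℕ => ZFSet.pair (natV n) (v n))

theorem sq_inj {v w : ℕ → ZFSet.{u}} (h : sq v = sq w) : v = w := by
  funext n
  have h1 : ZFSet.pair (natV n) (v n) ∈ sq w := by
    rw [← h]
    exact ZFSet.mem_range.2 ⟨n, rfl⟩
  obtain ⟨m, hm⟩ := ZFSet.mem_range.1 h1
  have h2 := ZFSet.pair_inj.1 hm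
  have h3 : m = n := natV_inj.1 h2.1
  subst h3
  exact h2.2.symm

theorem tup_inj : ∀ {n : ℕ} {v w : Fin n → ZFSet.{u}}, tup v = tup w → v = w := by
  intro n
  induction n with
  | zero =>
    intro v w _
    funext i
    exact i.elim0
  | succ n ih =>
    intro v w h
    have h1 := ZFSet.pair_inj.1 h
    have h2 := ih h1.2
    funext i
    refine Fin.cases h1.1 (fun j => ?_) i
    exact congrFun h2 j

/-- codes of the operation symbols -/
noncomputable def ic : Idx.{u} → ZFSet.{u}
  | .fo n φ v => ZFSet.pair (natV 0) (ZFSet.pair (natV n) (ZFSet.pair (natV (g φ)) (tup v)))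
  | .pw k v w => ZFSet.pair (natV 1) (ZFSet.pair (natV k) (ZFSet.pair v w))
  | .nm => ZFSet.pair (natV 2) ∅
  | .forc n φ => ZFSet.pair (natV 3) (ZFSet.pair (natV n) (natV (g φ)))
  | .valP => ZFSet.pair (natV 4) ∅
  | .symv b => ZFSet.pair (natV 5) b
  | .restr b => ZFSet.pair (natV 6) b

theorem ic_inj : ∀ i j : Idx.{u}, ic i = ic j → i = j := by
  intro i j h
  cases i with
  | fo n φ v =>
    cases j with
    | fo m ψ w =>
      simp only [ic, ZFSet.pair_inj, natV_inj, true_and] at h
      obtain ⟨h1, h2, h3⟩ := h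
      subst h1
      rw [g_inj φ ψ h2, tup_inj h3]
    | _ => simp [ic, ZFSet.pair_inj, natV_inj] at h
  | pw k v w =>
    cases j with
    | pw k' v' w' =>
      simp only [ic, ZFSet.pair_inj, natV_inj, true_and] at h
      rw [h.1, h.2.1, h.2.2]
    | _ => simp [ic, ZFSet.pair_inj, natV_inj] at h
  | nm =>
    cases j with
    | nm => rfl
    | _ => simp [ic, ZFSet.pair_inj, natV_inj] at h
  | forc n φ =>
    cases j with
    | forc m ψ =>
      simp only [ic, ZFSet.pair_inj, natV_inj, true_and] at h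
      obtain ⟨h1, h2⟩ := h
      subst h1
      rw [g_inj φ ψ h2]
    | _ => simp [ic, ZFSet.pair_inj, natV_inj] at h
  | valP =>
    cases j with
    | valP => rfl
    | _ => simp [ic, ZFSet.pair_inj, natV_inj] at h
  | symv b =>
    cases j with
    | symv b' =>
      simp only [ic, ZFSet.pair_inj, true_and] at h
      rw [h]
    | _ => simp [ic, ZFSet.pair_inj, natV_inj] at h
  | restr b =>
    cases j with
    | restr b' =>
      simp only [ic, ZFSet.pair_inj, true_and] at h
      rw [h]
    | _ => simp [ic, ZFSet.pair_inj, natV_inj] at h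

/-- codes of the terms -/
noncomputable def tc : Tm.{u} → ZFSet.{u}
  | .cst x => ZFSet.pair (natV 0) x
  | .bas k => ZFSet.pair (natV 1) (natV k)
  | .gen => ZFSet.pair (natV 2) ∅
  | .ap i t => ZFSet.pair (natV 3) (ZFSet.pair (ic i) (sq (fun n => tc (t n))))

theorem tc_inj (s : Tm.{u}) : ∀ t : Tm.{u}, tc s = tc t → s = t := by
  induction s with
  | cst x =>
    intro t h
    cases t with
    | cst y =>
      simp only [tc, ZFSet.pair_inj, true_and] at h
      rw [h]
    | _ => simp [tc, ZFSet.pair_inj, natV_inj] at h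
  | bas k =>
    intro t h
    cases t with
    | bas m =>
      simp only [tc, ZFSet.pair_inj, natV_inj, true_and] at h
      rw [h]
    | _ => simp [tc, ZFSet.pair_inj, natV_inj] at h
  | gen =>
    intro t h
    cases t with
    | gen => rfl
    | _ => simp [tc, ZFSet.pair_inj, natV_inj] at h
  | ap i s ih =>
    intro t h
    cases t with
    | ap j t =>
      simp only [tc, ZFSet.pair_inj, true_and] at h
      obtain ⟨h1, h2⟩ := h
      have h3 := sq_inj h2
      have h4 : s = t := by
        funext n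
        exact ih n (t n) (congrFun h3 n)
      rw [ic_inj i j h1, h4]
    | _ => simp [tc, ZFSet.pair_inj, natV_inj] at h

end INJL

theorem inj : S_INJ.{u} := ⟨INJL.tc, fun s t h => INJL.tc_inj s t h⟩

end Pool.Agent.H634.CS

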