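import Pool.Agent.H634.CS.Stm

/-!
# Flips of names and canonical names
-/

set_option linter.all false

namespace Pool.Agent.H634.CS

universe u

open ZFSet Set

namespace NAMESL

theorem flip_ctop (e : ZFSet.{u}) : flip e ctop = ctop := by
  apply Cond.ext
  · ext x
    rw [mem_flip_a]
    simp [ctop, ZFSet.notMem_empty]
  · ext x
    rw [mem_flip_b]
    simp [ctop, ZFSet.notMem_empty]

theorem autF_mem_GC {e p : ZFSet.{u}} {C : Set ZFSet.{u}} (hp : p ∈ Pcl) :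
    autF e p ∈ GC (flipS e C) ↔ p ∈ GC C := by
  obtain ⟨c, rfl⟩ := hp
  rw [autF_code, code_mem_GC, code_mem_GC, inC_flip_iff]

theorem mem_Pcl {x y p : ZFSet.{u}} (h : ∀ z ∈ x, ∃ y p, p ∈ Pcl ∧ z = ZFSet.pair y p)
    (hyp : ZFSet.pair y p ∈ x) : p ∈ Pcl := by
  obtain ⟨y', p', hp', he⟩ := h _ hyp
  rw [(ZFSet.pair_inj.1 he).2]
  exact hp'

theorem n1 (e : ZFSet.{u}) (C : Set ZFSet.{u}) (x : ZFSet.{u}) (hx : IsName Pcl x) :
    val (GC (flipS e C)) (act (autF e) x) = val (GC C) x := by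
  induction hx with
  | mk x h h' ih =>
    ext z
    rw [mem_val, mem_val]
    constructor
    · rintro ⟨y', p', hyp, hp', rfl⟩
      obtain ⟨y, p, hmem, he⟩ := mem_act.1 hyp
      obtain ⟨rfl, rfl⟩ := ZFSet.pair_inj.1 he
      exact ⟨y, p, hmem, (autF_mem_GC (mem_Pcl h hmem)).1 hp', ih y p hmem⟩
    · rintro ⟨y, p, hmem, hp, rfl⟩
      exact ⟨act (autF e) y, autF e p, mem_act.2 ⟨y, p, hmem, rfl⟩,
        (autF_mem_GC (mem_Pcl h hmem)).2 hp, (ih y p hmem).symm⟩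

theorem n2 (e : ZFSet.{u}) (C Γ : Set ZFSet.{u})
    (h : ∀ z ∈ Γ, ∃ y p, IsName Pcl y ∧ p ∈ Pcl ∧ z = ZFSet.pair y p) :
    valC (GC (flipS e C)) (actC (autF e) Γ) = valC (GC C) Γ := by
  have key : ∀ y p, ZFSet.pair y p ∈ Γ → IsName Pcl y ∧ p ∈ Pcl := by
    intro y p hyp
    obtain ⟨y', p', hy', hp', he⟩ := h _ hyp
    obtain ⟨rfl, rfl⟩ := ZFSet.pair_inj.1 he
    exact ⟨hy', hp'⟩
  apply Set.ext
  intro z
  constructor
  · rintro ⟨y', p', ⟨y, p, hmem, he⟩, hp', rfl⟩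
    obtain ⟨rfl, rfl⟩ := ZFSet.pair_inj.1 he
    obtain ⟨hy, hp⟩ := key y p hmem
    exact ⟨y, p, hmem, (autF_mem_GC hp).1 hp', n1 e C y hy⟩
  · rintro ⟨y, p, hmem, hp, rfl⟩
    obtain ⟨hy, hp'⟩ := key y p hmem
    exact ⟨act (autF e) y, autF e p, ⟨y, p, hmem, rfl⟩, (autF_mem_GC hp').2 hp,
      (n1 e C y hy).symm⟩

theorem n3 (e x : ZFSet.{u}) : act (autF e) (chk x) = chk x := by
  induction x using ZFSet.inductionOn with
  | _ x ih =>
    ext z
    rw [mem_act]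
    constructor
    · rintro ⟨y, p, hyp, rfl⟩
      obtain ⟨y', hy', he⟩ := mem_chk.1 hyp
      obtain ⟨rfl, rfl⟩ := ZFSet.pair_inj.1 he
      rw [mem_chk]
      exact ⟨y', hy', by rw [ih y' hy', autF_code, flip_ctop]⟩
    · intro hz
      obtain ⟨y', hy', rfl⟩ := mem_chk.1 hz
      exact ⟨chk y', code ctop, mem_chk.2 ⟨y', hy', rfl⟩,
        by rw [ih y' hy', autF_code, flip_ctop]⟩

theorem n4 (C : Set ZFSet.{u}) (x : ZFSet.{u}) : val (GC C) (chk x) = x := by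
  induction x using ZFSet.inductionOn with
  | _ x ih =>
    ext z
    rw [mem_val]
    constructor
    · rintro ⟨y, p, hyp, -, rfl⟩
      obtain ⟨y', hy', he⟩ := mem_chk.1 hyp
      obtain ⟨rfl, rfl⟩ := ZFSet.pair_inj.1 he
      rw [ih y' hy']
      exact hy'
    · intro hz
      exact ⟨chk z, code ctop, mem_chk.2 ⟨z, hz, rfl⟩, code_mem_GC.2 (inC_ctop C),
        (ih z hz).symm⟩

theorem n5 (x : ZFSet.{u}) : HS Set.univ S0 (chk x) := by
  induction x using ZFSet.inductionOn with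
  | _ x ih =>
    refine HS.mk (chk x) trivial ?_ ⟨∅, trivial, fun a _ => n3 a x⟩ ?_
    · intro z hz
      obtain ⟨y', hy', rfl⟩ := mem_chk.1 hz
      exact ⟨chk y', code ctop, ⟨ctop, rfl⟩, rfl⟩
    · intro y p hyp
      obtain ⟨y', hy', he⟩ := mem_chk.1 hyp
      obtain ⟨rfl, -⟩ := ZFSet.pair_inj.1 he
      exact ih y' hy'

theorem n6 (x : ZFSet.{u}) (hx : HS Set.univ S0 x) : IsName Pcl x := by
  induction hx with
  | mk x _ h _ _ ih => exact IsName.mk x h ih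

end NAMESL

theorem names : S_NAMES.{u} :=
  ⟨NAMESL.n1, NAMESL.n2, NAMESL.n3, NAMESL.n4, NAMESL.n5, NAMESL.n6⟩

end Pool.Agent.H634.CS
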