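import Pool.Agent.H634.CS.Stm

/-!
# Project CS: the main argument
-/

set_option linter.all false

namespace Pool.Agent.H634.CS

universe u

open ZFSet Set

namespace NOADDL

theorem evF_mono {Q le : Set ZFSet.{u}} (hpre : IsPre Q le) {z t q q' : ZFSet.{u}}
    (h : evF le z t q) (hq : ZFSet.pair q' q ∈ le) : evF le z t q' := by
  rw [evF] at h ⊢
  exact ⟨fun w r hw p h1 h2 => h.1 w r hw p (hpre.trans _ _ _ h1 hq) h2,
    fun s hs p h1 => h.2 s hs p (hpre.trans _ _ _ h1 hq)⟩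

theorem kx_mem {x : ZFSet.{u}} {C : Set ZFSet.{u}} : kx x ∈ GC C ↔ x ∈ C := by
  have h : kx x = code ⟨{x}, ∅, fun y _ h => ZFSet.notMem_empty y h⟩ := rfl
  rw [h, code_mem_GC]
  unfold InC
  constructor
  · intro h
    exact h.1 x (ZFSet.mem_singleton.2 rfl)
  · intro h
    refine ⟨?_, ?_⟩
    · intro y hy
      rw [ZFSet.mem_singleton.1 hy]
      exact h
    · intro y hy
      exact absurd hy (ZFSet.notMem_empty y)

/-- The sequence of four classes. -/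
def sq (A B D E : Set ZFSet.{u}) (j : ℕ) : Set ZFSet.{u} :=
  match j with
  | 0 => A
  | 1 => B
  | 2 => D
  | _ => E

theorem sq_mem {F : Set (Set ZFSet.{u})} {A B D E : Set ZFSet.{u}} (hA : A ∈ F) (hB : B ∈ F)
    (hD : D ∈ F) (hE : E ∈ F) (j : ℕ) : sq A B D E j ∈ F := by
  unfold sq
  split
  · exact hA
  · exact hB
  · exact hD
  · exact hE

theorem memQ {Q le : Set ZFSet.{u}} (hpre : IsPre Q le) {q p : ZFSet.{u}}
    (h : ZFSet.pair q p ∈ le) : q ∈ Q := by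
  obtain ⟨a, ha, b, hb, hab⟩ := hpre.dom _ h
  rw [(ZFSet.pair_inj.1 hab).1]
  exact ha

end NOADDL

open NOADDL in
theorem noadd (h : S_TRUTH.{u}) : S_NOADD.{u} := by
  intro N W Q le H Γ C i hN hWN hW hQ hle hΓ hpre hgen hcol hcol' hval
  have ht := h N Q le H hN (hWN hQ) (hWN hle) hpre hgen
  have T3 : ∀ q q' x, TT Q le Γ q x → ZFSet.pair q' q ∈ le → TT Q le Γ q' x :=
    fun q q' x hT hq p hp => hT p (hpre.trans _ _ _ hp hq)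
  have T1 : ∀ q ∈ H, ∀ x, TT Q le Γ q x → x ∈ C := by
    intro q hqH x hT
    have hA3 : X5 Q le Γ (kx x) ∈ N.classes :=
      hN 3 (kx x) ∅ (sq Q le Γ Q) (sq_mem (hWN hQ) (hWN hle) (hWN hΓ) (hWN hQ))
    have hD : {q | q ∈ Q ∧ (q ∈ X5 Q le Γ (kx x) ∨
        ∀ q', ZFSet.pair q' q ∈ le → q' ∉ X5 Q le Γ (kx x))} ∈ N.classes :=
      hN 4 ∅ ∅ (sq Q le (X5 Q le Γ (kx x)) Q) (sq_mem (hWN hQ) (hWN hle) hA3 (hWN hQ))
    obtain ⟨q1, hq1D, hq1H⟩ := hgen.meets _ hD (fun z hz => hz.1) (by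
      intro p hp
      by_cases hx : ∃ q', ZFSet.pair q' p ∈ le ∧ q' ∈ X5 Q le Γ (kx x)
      · obtain ⟨q', h1, h2⟩ := hx
        exact ⟨q', ⟨memQ hpre h1, Or.inl h2⟩, h1⟩
      · push Not at hx
        exact ⟨p, ⟨hp, Or.inr hx⟩, hpre.refl p hp⟩)
    rcases hq1D.2 with h1 | h1
    · obtain ⟨-, z, r, hz, hr, he⟩ := h1
      have hrH := hgen.up q1 hq1H r hr
      have hv := (ht z (kx x)).2 ⟨q1, hq1H, he⟩
      have hm : kx x ∈ valC H Γ := ⟨z, r, hz, hrH, hv.symm⟩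
      rw [hval] at hm
      exact kx_mem.1 hm
    · obtain ⟨q2, hq2, h21, h22⟩ := hgen.dir q hqH q1 hq1H
      obtain ⟨q3, h3, h4⟩ := hT q2 h21
      exact absurd h4 (h1 q3 (hpre.trans _ _ _ h3 h22))
  have T2 : ∀ x ∈ C, ∃ q ∈ H, TT Q le Γ q x := by
    intro x hx
    have hm : kx x ∈ valC H Γ := by rw [hval]; exact kx_mem.2 hx
    obtain ⟨z, r, hz, hr, hv⟩ := hm
    obtain ⟨q0, hq0, he⟩ := (ht z (kx x)).1 hv.symm
    obtain ⟨q, hq, h1, h2⟩ := hgen.dir q0 hq0 r hr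
    refine ⟨q, hq, fun q' hq' => ⟨q', hpre.refl q' (memQ hpre hq'), memQ hpre hq', z, r, hz,
      hpre.trans _ _ _ hq' h2, evF_mono hpre he (hpre.trans _ _ _ hq' h1)⟩⟩
  have hD : {q | q ∈ Q ∧ ∃ x, InCol {i} x ∧ ((TT Q le Γ q x ∧ x ∉ rsS {i} C) ∨
      ((∀ q', ZFSet.pair q' q ∈ le → ¬ TT Q le Γ q' x) ∧ x ∈ rsS {i} C))} ∈ N.classes :=
    hN 5 i ∅ (sq Q le Γ (rsS {i} C)) (sq_mem (hWN hQ) (hWN hle) (hWN hΓ) hcol)
  by_cases hdense : ∀ p ∈ Q, ∃ q ∈ {q | q ∈ Q ∧ ∃ x, InCol {i} x ∧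
      ((TT Q le Γ q x ∧ x ∉ rsS {i} C) ∨
      ((∀ q', ZFSet.pair q' q ∈ le → ¬ TT Q le Γ q' x) ∧ x ∈ rsS {i} C))}, ZFSet.pair q p ∈ le
  · obtain ⟨q, hqD, hqH⟩ := hgen.meets _ hD (fun z hz => hz.1) hdense
    obtain ⟨-, x, hx, h1 | h1⟩ := hqD
    · exact h1.2 ⟨T1 q hqH x h1.1, hx⟩
    · obtain ⟨q1, hq1, hT⟩ := T2 x h1.2.1
      obtain ⟨q', -, h2, h3⟩ := hgen.dir q hqH q1 hq1
      exact h1.1 q' h2 (T3 _ _ _ hT h3)
  · push Not at hdense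
    obtain ⟨q0, hq0, hno⟩ := hdense
    apply hcol'
    have hE : {x | InCol {i} x ∧ ∃ q, ZFSet.pair q q0 ∈ le ∧ TT Q le Γ q x} ∈ W :=
      hW 6 i q0 (sq Q le Γ Q) (sq_mem hQ hle hΓ hQ)
    have he : rsS {i} C = {x | InCol {i} x ∧ ∃ q, ZFSet.pair q q0 ∈ le ∧ TT Q le Γ q x} := by
      ext x
      constructor
      · intro hx
        refine ⟨hx.2, ?_⟩
        by_contra hcon
        push Not at hcon
        exact hno q0 ⟨hq0, x, hx.2, Or.inr ⟨hcon, hx⟩⟩ (hpre.refl q0 hq0)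
      · rintro ⟨hx, q, hq, hT⟩
        by_contra hcon
        exact hno q ⟨memQ hpre hq, x, hx, Or.inl ⟨hT, hcon⟩⟩ hq
    rw [he]
    exact hE

end Pool.Agent.H634.CS
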