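import Pool.Agent.H634.CS.Stm

/-!
# The leaf RESTRICT
-/

set_option linter.all false

namespace Pool.Agent.H634.CS

universe u

open ZFSet Set

theorem restrict (h1 : S_DENSE.{u}) (h2 : S_DECIDE.{u}) (h3 : S_FLIP.{u})
    (h4 : S_INCOMPAT.{u}) : S_RESTRICT.{u} := by
  intro S hS b hinv c hc
  refine h1 _ _ (fun d hd => ?_)
  obtain ⟨d', hd', h5 | h5⟩ := h2 S hS d
  · exact ⟨d', hd', h5⟩
  exfalso
  have hd2 : d' ≤ rs b c := hd'.trans hd
  let e : ZFSet.{u} := ZFSet.sep (fun x => (x ∈ c.a ∧ x ∈ d'.b) ∨ (x ∈ c.b ∧ x ∈ d'.a))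
    (c.a ∪ c.b)
  have hmem : ∀ x, x ∈ e ↔ (x ∈ c.a ∧ x ∈ d'.b) ∨ (x ∈ c.b ∧ x ∈ d'.a) := by
    intro x
    simp only [e, ZFSet.mem_sep, ZFSet.mem_union]
    tauto
  have he : e ∈ baseF b := by
    intro x hx hcol
    rcases (hmem x).1 hx with ⟨h6, h7⟩ | ⟨h6, h7⟩
    · exact d'.disj x (hd2.1 x (mem_rs_a.2 ⟨h6, hcol⟩)) h7
    · exact d'.disj x h7 (hd2.2 x (mem_rs_b.2 ⟨h6, hcol⟩))
  have h6 : Forc (flip e d') (fun C => ¬ S C) := by
    have := h3 e d' _ h5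
    exact (Forc.congr (fun C => not_congr (hinv e he C))).1 this
  have h7 : ∀ x ∈ c.a, x ∉ (flip e d').b := by
    intro x hx hx'
    rw [mem_flip_b] at hx'
    have := hmem x
    have := c.disj x
    have := d'.disj x
    tauto
  have h8 : ∀ x ∈ (flip e d').a, x ∉ c.b := by
    intro x hx' hx
    rw [mem_flip_a] at hx'
    have := hmem x
    have := c.disj x
    have := d'.disj x
    tauto
  exact h4 c (flip e d') _ S (Cond.join_le_left h7 h8) (Cond.join_le_right h7 h8) hc h6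

end Pool.Agent.H634.CS
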