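import Pool.Agent.H634.CS.Stm

/-!
# The leaf SYS
-/

set_option linter.all false

namespace Pool.Agent.H634.CS

universe u

open ZFSet Set

namespace SYSL

/-- The symmetric difference. -/
def sd (e e' : ZFSet.{u}) : ZFSet.{u} :=
  ZFSet.sep (fun x => (x ∈ e ∧ x ∉ e') ∨ (x ∉ e ∧ x ∈ e')) (e ∪ e')

theorem mem_sd {e e' x : ZFSet.{u}} : x ∈ sd e e' ↔ (x ∈ e ∧ x ∉ e') ∨ (x ∉ e ∧ x ∈ e') := by
  simp only [sd, ZFSet.mem_sep, ZFSet.mem_union]
  tauto

theorem flip_empty (c : Cond.{u}) : flip ∅ c = c := by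
  ext x
  · simp [mem_flip_a]
  · simp [mem_flip_b]

theorem flip_sd (e e' : ZFSet.{u}) (c : Cond.{u}) : flip (sd e e') c = flip e (flip e' c) := by
  ext x
  · simp only [mem_flip_a, mem_flip_b, mem_sd]
    have := c.disj x
    tauto
  · simp only [mem_flip_a, mem_flip_b, mem_sd]
    have := c.disj x
    tauto

theorem flip_comm (e e' : ZFSet.{u}) (c : Cond.{u}) :
    flip e (flip e' c) = flip e' (flip e c) := by
  ext x
  · simp only [mem_flip_a, mem_flip_b]
    have := c.disj x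
    tauto
  · simp only [mem_flip_a, mem_flip_b]
    have := c.disj x
    tauto

theorem isGroup (I : Set ZFSet.{u}) (h0 : (∅ : ZFSet.{u}) ∈ I)
    (h : ∀ a ∈ I, ∀ b ∈ I, sd a b ∈ I) : S0.{u}.IsGroup I where
  one := ⟨∅, h0, by
    rintro p ⟨c, rfl⟩
    change autF ∅ (code c) = code c
    rw [autF_code, flip_empty]⟩
  mul := by
    intro a ha b hb
    refine ⟨sd a b, h a ha b hb, ?_⟩
    rintro p ⟨c, rfl⟩
    change autF (sd a b) (code c) = autF a (autF b (code c))
    rw [autF_code, autF_code, autF_code, flip_sd]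
  inv := by
    intro a ha
    refine ⟨a, ha, ?_⟩
    rintro p ⟨c, rfl⟩
    change autF a (autF a (code c)) = code c
    rw [autF_code, autF_code, flip_flip]

end SYSL

open SYSL

theorem sys : S_SYS.{u} where
  P_class := ⟨Tm.bas 0, rfl⟩
  le_class := ⟨Tm.bas 1, rfl⟩
  pre := by
    refine ⟨?_, ?_, ?_⟩
    · rintro z ⟨c, d, -, rfl⟩
      exact ⟨code c, ⟨c, rfl⟩, code d, ⟨d, rfl⟩, rfl⟩
    · rintro p ⟨c, rfl⟩
      exact pair_mem_lecl.2 (le_refl c)
    · rintro p q r ⟨c, d, h, h'⟩ ⟨c', d', h2, h2'⟩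
      have h3 := ZFSet.pair_inj.1 h'
      have h4 := ZFSet.pair_inj.1 h2'
      rw [h3.1, h4.2]
      refine pair_mem_lecl.2 (h.trans ?_)
      have : d = c' := code_inj.1 (h3.2.symm.trans h4.1)
      rw [this]; exact h2
  aut_class := ⟨Tm.bas 2, rfl⟩
  aut_bij := by
    intro a _
    refine ⟨?_, ?_, ?_⟩
    · rintro p ⟨c, rfl⟩
      exact ⟨flip a c, autF_code a c⟩
    · rintro p ⟨c, rfl⟩ q ⟨d, rfl⟩ h
      change autF a (code c) = autF a (code d) at h
      rw [autF_code, autF_code, code_inj] at h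
      have := congrArg (flip a) h
      rw [flip_flip, flip_flip] at this
      rw [this]
    · rintro p ⟨c, rfl⟩
      refine ⟨code (flip a c), ⟨_, rfl⟩, ?_⟩
      change autF a (code (flip a c)) = code c
      rw [autF_code, flip_flip]
  aut_le := by
    rintro a _ p ⟨c, rfl⟩ q ⟨d, rfl⟩
    change ZFSet.pair (autF a (code c)) (autF a (code d)) ∈ lecl ↔ _
    rw [autF_code, autF_code, pair_mem_lecl, flip_le_iff]
    exact pair_mem_lecl.symm
  group := isGroup _ trivial (fun _ _ _ _ => trivial)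
  base_class := ⟨Tm.bas 3, rfl⟩
  base_sub := fun _ _ _ _ => trivial
  base_group := by
    intro b _
    refine isGroup _ (fun x hx => absurd hx (ZFSet.notMem_empty x)) ?_
    intro a ha a' ha' x hx
    rcases mem_sd.1 hx with h | h
    · exact ha x h.1
    · exact ha' x h.2
  base_top := by
    refine ⟨∅, trivial, fun a _ => ⟨a, ?_, fun _ _ => rfl⟩⟩
    rintro x - ⟨i, hi, -⟩
    exact ZFSet.notMem_empty i hi
  base_dir := by
    intro b _ c _
    refine ⟨b ∪ c, trivial, fun a ha => ⟨⟨a, ?_, fun _ _ => rfl⟩, ⟨a, ?_, fun _ _ => rfl⟩⟩⟩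
    · rintro x hx ⟨i, hi, y, hy⟩
      exact ha x hx ⟨i, ZFSet.mem_union.2 (Or.inl hi), y, hy⟩
    · rintro x hx ⟨i, hi, y, hy⟩
      exact ha x hx ⟨i, ZFSet.mem_union.2 (Or.inr hi), y, hy⟩
  normal := by
    intro a _ b _
    refine ⟨b, trivial, fun e he => ⟨e, he, ?_⟩⟩
    rintro p ⟨c, rfl⟩
    change autF e (autF a (code c)) = autF a (autF e (code c))
    rw [autF_code, autF_code, autF_code, autF_code, flip_comm]

end Pool.Agent.H634.CS
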