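import Pool.Agent.H634.CS.Stm

/-!
# The truth lemma for a generic filter over a class model
-/

set_option linter.all false

namespace Pool.Agent.H634.CS

universe u

open ZFSet Set

namespace TRUTHL

/-- The family of classes `Q, le, A, A, ...`. -/
def fam (Q le A : Set ZFSet.{u}) : ℕ → Set ZFSet.{u}
  | 0 => Q
  | 1 => le
  | _ => A

theorem fam_mem {N : Model.{u}} {Q le A : Set ZFSet.{u}} (hQ : Q ∈ N.classes)
    (hle : le ∈ N.classes) (hA : A ∈ N.classes) : ∀ j, fam Q le A j ∈ N.classes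
  | 0 => hQ
  | 1 => hle
  | _ + 2 => hA

theorem rank_lt {w r z : ZFSet.{u}} (h : ZFSet.pair w r ∈ z) : w.rank < z.rank := by
  refine ((ZFSet.rank_lt_of_mem (ZFSet.mem_singleton.2 rfl)).trans
    (ZFSet.rank_lt_of_mem ?_)).trans (ZFSet.rank_lt_of_mem h)
  simp [ZFSet.pair]

theorem evF_iff {le : Set ZFSet.{u}} {z t q : ZFSet.{u}} : evF le z t q ↔
    (∀ w r, ZFSet.pair w r ∈ z → ∀ q', ZFSet.pair q' q ∈ le → ZFSet.pair q' r ∈ le →
      ∃ q'', ZFSet.pair q'' q' ∈ le ∧ ∃ s, s ∈ t ∧ evF le w s q'') ∧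
    (∀ s, s ∈ t → ∀ q', ZFSet.pair q' q ∈ le →
      ∃ q'', ZFSet.pair q'' q' ∈ le ∧ ∃ w r, ZFSet.pair w r ∈ z ∧
        ZFSet.pair q'' r ∈ le ∧ evF le w s q'') := by
  rw [evF]
  constructor
  · rintro ⟨h1, h2⟩
    refine ⟨fun w r h => h1 w r h, fun s hs q' hq' => ?_⟩
    obtain ⟨q'', h3, w, r, h4, h5, h6⟩ := h2 s hs q' hq'
    exact ⟨q'', h3, w, r, h4, h5, h6⟩
  · rintro ⟨h1, h2⟩
    refine ⟨fun w r h => h1 w r h, fun s hs q' hq' => ?_⟩
    obtain ⟨q'', h3, w, r, h4, h5, h6⟩ := h2 s hs q' hq'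
    exact ⟨q'', h3, w, r, h4, h5, h6⟩

/-- Monotonicity. -/
theorem evF_mono {Q le : Set ZFSet.{u}} (hpre : IsPre Q le) {z t q q' : ZFSet.{u}}
    (h : evF le z t q) (hq : ZFSet.pair q' q ∈ le) : evF le z t q' := by
  rw [evF_iff] at h ⊢
  exact ⟨fun w r hw p hp hpr => h.1 w r hw p (hpre.trans _ _ _ hp hq) hpr,
    fun s hs p hp => h.2 s hs p (hpre.trans _ _ _ hp hq)⟩

theorem dom_left {Q le : Set ZFSet.{u}} (hpre : IsPre Q le) {p q : ZFSet.{u}}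
    (h : ZFSet.pair p q ∈ le) : p ∈ Q := by
  obtain ⟨p', hp', q', hq', he⟩ := hpre.dom _ h
  rw [(ZFSet.pair_inj.1 he).1]
  exact hp'

/-- A class of `N` that is dense below an element of `H` meets `H`. -/
theorem meetA {N : Model.{u}} {Q le H : Set ZFSet.{u}}
    (hcl : ∀ (k : ℕ) (v w : ZFSet.{u}) (A : ℕ → Set ZFSet.{u}), (∀ j, A j ∈ N.classes) →
      pwEv k v w A ∈ N.classes)
    (hQ : Q ∈ N.classes) (hle : le ∈ N.classes) (hpre : IsPre Q le)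
    (hg : IsGeneric N Q le H) {A : Set ZFSet.{u}} (hA : A ∈ N.classes) {q0 : ZFSet.{u}}
    (hq0 : q0 ∈ H)
    (hd : ∀ q', ZFSet.pair q' q0 ∈ le → ∃ q'', ZFSet.pair q'' q' ∈ le ∧ q'' ∈ A) :
    ∃ q ∈ H, q ∈ A := by
  have h4 := hcl 4 ∅ ∅ (fam Q le A) (fam_mem hQ hle hA)
  obtain ⟨q1, hq1, hq1H⟩ := hg.meets _ h4 (fun q hq => hq.1) (by
    intro p hp
    by_cases h : ∃ q', ZFSet.pair q' p ∈ le ∧ q' ∈ A
    · obtain ⟨q', h1, h2⟩ := h
      exact ⟨q', ⟨dom_left hpre h1, Or.inl h2⟩, h1⟩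
    · exact ⟨p, ⟨hp, Or.inr (fun q' h1 h2 => h ⟨q', h1, h2⟩)⟩, hpre.refl p hp⟩)
  rcases hq1.2 with h | h
  · exact ⟨q1, hq1H, h⟩
  · exfalso
    obtain ⟨q2, hq2, h20, h21⟩ := hg.dir q0 hq0 q1 hq1H
    obtain ⟨q'', h5, h6⟩ := hd q2 h20
    exact h q'' (hpre.trans _ _ _ h5 h21) h6

/-- The main induction. -/
theorem main {N : Model.{u}} {Q le H : Set ZFSet.{u}}
    (hcl : ∀ (k : ℕ) (v w : ZFSet.{u}) (A : ℕ → Set ZFSet.{u}), (∀ j, A j ∈ N.classes) →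
      pwEv k v w A ∈ N.classes)
    (hQ : Q ∈ N.classes) (hle : le ∈ N.classes) (hpre : IsPre Q le)
    (hg : IsGeneric N Q le H) (α : Ordinal.{u}) :
    ∀ z : ZFSet.{u}, z.rank = α → ∀ t : ZFSet.{u}, val H z = t ↔ ∃ q ∈ H, evF le z t q := by
  induction α using WellFoundedLT.induction with
  | ind α ih =>
  intro z hz t
  have IH : ∀ w r, ZFSet.pair w r ∈ z → ∀ s : ZFSet.{u},
      (val H w = s ↔ ∃ q ∈ H, evF le w s q) := by
    intro w r hw s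
    exact ih w.rank (hz ▸ rank_lt hw) w rfl s
  constructor
  · -- (3)
    intro hval
    have h2 := hcl 2 z t (fam Q le Q) (fam_mem hQ hle hQ)
    obtain ⟨q, hqD, hqH⟩ := hg.meets _ h2 (fun q hq => hq.1) (by
      intro p hp
      by_cases hev : evF le z t p
      · exact ⟨p, ⟨hp, Or.inl hev⟩, hpre.refl p hp⟩
      · rw [evF_iff] at hev
        by_cases h1 : ∀ w r, ZFSet.pair w r ∈ z → ∀ q', ZFSet.pair q' p ∈ le →
            ZFSet.pair q' r ∈ le →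
            ∃ q'', ZFSet.pair q'' q' ∈ le ∧ ∃ s, s ∈ t ∧ evF le w s q''
        · have h3 : ¬ (∀ s, s ∈ t → ∀ q', ZFSet.pair q' p ∈ le →
              ∃ q'', ZFSet.pair q'' q' ∈ le ∧ ∃ w r, ZFSet.pair w r ∈ z ∧
              ZFSet.pair q'' r ∈ le ∧ evF le w s q'') := fun h => hev ⟨h1, h⟩
          push Not at h3
          obtain ⟨s, hs, q', hq', h4⟩ := h3
          exact ⟨q', ⟨dom_left hpre hq', Or.inr (Or.inr ⟨s, hs, fun q'' hq'' w r hw hr =>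
            h4 q'' hq'' w r hw hr⟩)⟩, hq'⟩
        · push Not at h1
          obtain ⟨w, r, hw, q', hq', hr, h4⟩ := h1
          exact ⟨q', ⟨dom_left hpre hq', Or.inr (Or.inl ⟨w, r, hw, hr, fun q'' hq'' s hs =>
            h4 q'' hq'' s hs⟩)⟩, hq'⟩)
    rcases hqD.2 with h | ⟨w, r, hw, hr, h⟩ | ⟨s, hs, h⟩
    · exact ⟨q, hqH, h⟩
    · exfalso
      have hrH : r ∈ H := hg.up q hqH r hr
      have hmem : val H w ∈ t := by
        rw [← hval]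
        exact mem_val.2 ⟨w, r, hw, hrH, rfl⟩
      obtain ⟨q1, hq1, hev⟩ := (IH w r hw (val H w)).1 rfl
      obtain ⟨q2, hq2, h20, h21⟩ := hg.dir q hqH q1 hq1
      exact h q2 h20 _ hmem (evF_mono hpre hev h21)
    · exfalso
      rw [← hval, mem_val] at hs
      obtain ⟨w, r, hw, hrH, rfl⟩ := hs
      obtain ⟨q1, hq1, hev⟩ := (IH w r hw (val H w)).1 rfl
      obtain ⟨q2, hq2, h20, h21⟩ := hg.dir q hqH q1 hq1
      obtain ⟨q3, hq3, h32, h3r⟩ := hg.dir q2 hq2 r hrH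
      exact h q3 (hpre.trans _ _ _ h32 h20) w r hw h3r
        (evF_mono hpre hev (hpre.trans _ _ _ h32 h21))
  · -- (2)
    rintro ⟨q0, hq0, hev⟩
    rw [evF_iff] at hev
    ext x
    rw [mem_val]
    constructor
    · rintro ⟨w, r, hw, hrH, rfl⟩
      obtain ⟨q1, hq1, h10, h1r⟩ := hg.dir q0 hq0 r hrH
      have h0 := hcl 0 w t (fam Q le Q) (fam_mem hQ hle hQ)
      obtain ⟨q, hqH, hqA⟩ := meetA hcl hQ hle hpre hg h0 hq1 (by
        intro q' hq'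
        obtain ⟨q'', h3, s, hs, h4⟩ := hev.1 w r hw q' (hpre.trans _ _ _ hq' h10)
          (hpre.trans _ _ _ hq' h1r)
        exact ⟨q'', h3, dom_left hpre h3, s, hs, h4⟩)
      obtain ⟨_, s, hs, h4⟩ := hqA
      rw [(IH w r hw s).2 ⟨q, hqH, h4⟩]
      exact hs
    · intro hx
      have h1 := hcl 1 z x (fam Q le Q) (fam_mem hQ hle hQ)
      obtain ⟨q, hqH, hqA⟩ := meetA hcl hQ hle hpre hg h1 hq0 (by
        intro q' hq'
        obtain ⟨q'', h3, w, r, hw, hr, h4⟩ := hev.2 x hx q' hq'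
        exact ⟨q'', h3, dom_left hpre h3, w, r, hw, hr, h4⟩)
      obtain ⟨_, w, r, hw, hr, h4⟩ := hqA
      exact ⟨w, r, hw, hg.up q hqH r hr, ((IH w r hw x).2 ⟨q, hqH, h4⟩).symm⟩

end TRUTHL

theorem truth : S_TRUTH.{u} := by
  intro N Q le H hcl hQ hle hpre hg z t
  exact TRUTHL.main hcl hQ hle hpre hg z.rank z rfl t

end Pool.Agent.H634.CS
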