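import Pool.Agent.H634.CS.Defs

/-!
# The Cohen class forcing and the operators: definitions
-/

set_option linter.all false

namespace Pool.Agent.H634.CS

universe u

open ZFSet Set

/-! ## Conditions -/

/-- A condition: two disjoint sets (`a` is included in the generic class, `b` is disjoint from
it). -/
@[ext] structure Cond : Type (u + 1) where
  a : ZFSet.{u}
  b : ZFSet.{u}
  disj : ∀ x ∈ a, x ∉ b

instance : Preorder Cond.{u} where
  le q p := (∀ x ∈ p.a, x ∈ q.a) ∧ (∀ x ∈ p.b, x ∈ q.b)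
  le_refl p := ⟨fun _ h => h, fun _ h => h⟩
  le_trans p q r h1 h2 := ⟨fun x h => h1.1 x (h2.1 x h), fun x h => h1.2 x (h2.2 x h)⟩

theorem Cond.le_def {q p : Cond.{u}} :
    q ≤ p ↔ (∀ x ∈ p.a, x ∈ q.a) ∧ (∀ x ∈ p.b, x ∈ q.b) := Iff.rfl

/-- The condition `c` agrees with the class `C`. -/
def InC (c : Cond.{u}) (C : Set ZFSet.{u}) : Prop := (∀ x ∈ c.a, x ∈ C) ∧ ∀ x ∈ c.b, x ∉ C

theorem InC.mono {c d : Cond.{u}} {C : Set ZFSet.{u}} (h : InC d C) (hd : d ≤ c) : InC c C :=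
  ⟨fun x hx => h.1 x (hd.1 x hx), fun x hx => h.2 x (hd.2 x hx)⟩

/-- Dense sets of conditions. -/
def Dense (D : Set Cond.{u}) : Prop := ∀ c, ∃ d, d ≤ c ∧ d ∈ D

/-- The class `C` meets `D`. -/
def Met (C : Set ZFSet.{u}) (D : Set Cond.{u}) : Prop := ∃ d ∈ D, InC d C

/-- The greatest condition. -/
def ctop : Cond.{u} := ⟨∅, ∅, fun x hx => absurd hx (ZFSet.notMem_empty x)⟩

theorem inC_ctop (C : Set ZFSet.{u}) : InC ctop C :=
  ⟨fun x hx => absurd hx (ZFSet.notMem_empty x), fun x hx => absurd hx (ZFSet.notMem_empty x)⟩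

theorem le_ctop (c : Cond.{u}) : c ≤ ctop :=
  ⟨fun x hx => absurd hx (ZFSet.notMem_empty x), fun x hx => absurd hx (ZFSet.notMem_empty x)⟩

/-- The union of two compatible conditions. -/
def Cond.join (p q : Cond.{u}) (h1 : ∀ x ∈ p.a, x ∉ q.b) (h2 : ∀ x ∈ q.a, x ∉ p.b) :
    Cond.{u} where
  a := p.a ∪ q.a
  b := p.b ∪ q.b
  disj := by
    intro x hx hx'
    rw [ZFSet.mem_union] at hx hx'
    rcases hx with hx | hx <;> rcases hx' with hx' | hx'
    · exact p.disj x hx hx'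
    · exact h1 x hx hx'
    · exact h2 x hx hx'
    · exact q.disj x hx hx'

theorem Cond.join_le_left {p q : Cond.{u}} (h1 : ∀ x ∈ p.a, x ∉ q.b)
    (h2 : ∀ x ∈ q.a, x ∉ p.b) : p.join q h1 h2 ≤ p :=
  ⟨fun x hx => ZFSet.mem_union.2 (Or.inl hx), fun x hx => ZFSet.mem_union.2 (Or.inl hx)⟩

theorem Cond.join_le_right {p q : Cond.{u}} (h1 : ∀ x ∈ p.a, x ∉ q.b)
    (h2 : ∀ x ∈ q.a, x ∉ p.b) : p.join q h1 h2 ≤ q :=
  ⟨fun x hx => ZFSet.mem_union.2 (Or.inr hx), fun x hx => ZFSet.mem_union.2 (Or.inr hx)⟩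

/-- Two conditions that agree with the same class have a common extension that agrees with it. -/
theorem InC.join {p q : Cond.{u}} {C : Set ZFSet.{u}} (hp : InC p C) (hq : InC q C) :
    ∃ r, r ≤ p ∧ r ≤ q ∧ InC r C := by
  refine ⟨p.join q (fun x hx hx' => hq.2 x hx' (hp.1 x hx))
    (fun x hx hx' => hp.2 x hx' (hq.1 x hx)), Cond.join_le_left _ _, Cond.join_le_right _ _,
    ?_, ?_⟩
  · intro x hx
    rcases ZFSet.mem_union.1 hx with h | h
    · exact hp.1 x h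
    · exact hq.1 x h
  · intro x hx
    rcases ZFSet.mem_union.1 hx with h | h
    · exact hp.2 x h
    · exact hq.2 x h

/-! ## Flips and restrictions -/

/-- The symmetric difference of the class `C` with the set `e`. -/
def flipS (e : ZFSet.{u}) (C : Set ZFSet.{u}) : Set ZFSet.{u} :=
  {x | (x ∈ C ∧ x ∉ e) ∨ (x ∉ C ∧ x ∈ e)}

/-- The flip of a condition by the set `e`. -/
def flip (e : ZFSet.{u}) (c : Cond.{u}) : Cond.{u} where
  a := ZFSet.sep (fun x => (x ∈ c.a ∧ x ∉ e) ∨ (x ∈ c.b ∧ x ∈ e)) (c.a ∪ c.b)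
  b := ZFSet.sep (fun x => (x ∈ c.b ∧ x ∉ e) ∨ (x ∈ c.a ∧ x ∈ e)) (c.a ∪ c.b)
  disj := by
    intro x hx hx'
    rw [ZFSet.mem_sep] at hx hx'
    have := c.disj x
    tauto

theorem mem_flip_a {e : ZFSet.{u}} {c : Cond.{u}} {x : ZFSet.{u}} :
    x ∈ (flip e c).a ↔ (x ∈ c.a ∧ x ∉ e) ∨ (x ∈ c.b ∧ x ∈ e) := by
  simp only [flip, ZFSet.mem_sep, ZFSet.mem_union]
  tauto

theorem mem_flip_b {e : ZFSet.{u}} {c : Cond.{u}} {x : ZFSet.{u}} :
    x ∈ (flip e c).b ↔ (x ∈ c.b ∧ x ∉ e) ∨ (x ∈ c.a ∧ x ∈ e) := by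
  simp only [flip, ZFSet.mem_sep, ZFSet.mem_union]
  tauto

theorem mem_flipS {e : ZFSet.{u}} {C : Set ZFSet.{u}} {x : ZFSet.{u}} :
    x ∈ flipS e C ↔ (x ∈ C ∧ x ∉ e) ∨ (x ∉ C ∧ x ∈ e) := Iff.rfl

theorem flipS_flipS (e : ZFSet.{u}) (C : Set ZFSet.{u}) : flipS e (flipS e C) = C := by
  ext x
  simp only [mem_flipS]
  tauto

theorem flip_flip (e : ZFSet.{u}) (c : Cond.{u}) : flip e (flip e c) = c := by
  ext x
  · simp only [mem_flip_a, mem_flip_b]
    have := c.disj x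
    tauto
  · simp only [mem_flip_a, mem_flip_b]
    have := c.disj x
    tauto

theorem flip_le {e : ZFSet.{u}} {c d : Cond.{u}} (h : c ≤ d) : flip e c ≤ flip e d := by
  constructor
  · intro x
    simp only [mem_flip_a]
    have := h.1 x
    have := h.2 x
    tauto
  · intro x
    simp only [mem_flip_b]
    have := h.1 x
    have := h.2 x
    tauto

theorem flip_le_iff {e : ZFSet.{u}} {c d : Cond.{u}} : flip e c ≤ flip e d ↔ c ≤ d :=
  ⟨fun h => by simpa only [flip_flip] using flip_le (e := e) h, flip_le⟩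

theorem inC_flip {e : ZFSet.{u}} {c : Cond.{u}} {C : Set ZFSet.{u}} (h : InC c C) :
    InC (flip e c) (flipS e C) := by
  constructor
  · intro x
    simp only [mem_flip_a, mem_flipS]
    have := h.1 x
    have := h.2 x
    tauto
  · intro x
    simp only [mem_flip_b, mem_flipS]
    have := h.1 x
    have := h.2 x
    tauto

theorem inC_flip_iff {e : ZFSet.{u}} {c : Cond.{u}} {C : Set ZFSet.{u}} :
    InC (flip e c) (flipS e C) ↔ InC c C :=
  ⟨fun h => by simpa only [flip_flip, flipS_flipS] using inC_flip (e := e) h, inC_flip⟩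

/-- `x` belongs to one of the columns with index in `b`. -/
def InCol (b x : ZFSet.{u}) : Prop := ∃ i ∈ b, ∃ y, x = ZFSet.pair i y

/-- The part of the class `C` in the columns with index in `b`. -/
def rsS (b : ZFSet.{u}) (C : Set ZFSet.{u}) : Set ZFSet.{u} := {x | x ∈ C ∧ InCol b x}

/-- The restriction of a condition to the columns with index in `b`. -/
def rs (b : ZFSet.{u}) (c : Cond.{u}) : Cond.{u} where
  a := ZFSet.sep (fun x => InCol b x) c.a
  b := ZFSet.sep (fun x => InCol b x) c.b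
  disj := by
    intro x hx hx'
    rw [ZFSet.mem_sep] at hx hx'
    exact c.disj x hx.1 hx'.1

theorem mem_rs_a {b : ZFSet.{u}} {c : Cond.{u}} {x : ZFSet.{u}} :
    x ∈ (rs b c).a ↔ x ∈ c.a ∧ InCol b x := by simp [rs]

theorem mem_rs_b {b : ZFSet.{u}} {c : Cond.{u}} {x : ZFSet.{u}} :
    x ∈ (rs b c).b ↔ x ∈ c.b ∧ InCol b x := by simp [rs]

theorem le_rs (b : ZFSet.{u}) (c : Cond.{u}) : c ≤ rs b c :=
  ⟨fun x hx => (mem_rs_a.1 hx).1, fun x hx => (mem_rs_b.1 hx).1⟩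

theorem rs_rs (b : ZFSet.{u}) (c : Cond.{u}) : rs b (rs b c) = rs b c := by
  ext x
  · simp only [mem_rs_a]; tauto
  · simp only [mem_rs_b]; tauto

theorem inC_rsS {b : ZFSet.{u}} {c : Cond.{u}} {C : Set ZFSet.{u}} (h : rs b c = c) :
    InC c (rsS b C) ↔ InC c C := by
  have ha : ∀ x ∈ c.a, InCol b x := fun x hx => by rw [← h] at hx; exact (mem_rs_a.1 hx).2
  have hb : ∀ x ∈ c.b, InCol b x := fun x hx => by rw [← h] at hx; exact (mem_rs_b.1 hx).2
  constructor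
  · intro h'
    exact ⟨fun x hx => (h'.1 x hx).1, fun x hx hx' => h'.2 x hx ⟨hx', hb x hx⟩⟩
  · intro h'
    exact ⟨fun x hx => ⟨h'.1 x hx, ha x hx⟩, fun x hx hx' => h'.2 x hx hx'.1⟩

/-! ## Codes of conditions, the symmetric system -/

/-- The code of a condition. -/
def code (c : Cond.{u}) : ZFSet.{u} := ZFSet.pair c.a c.b

theorem code_inj {c d : Cond.{u}} : code c = code d ↔ c = d := by
  constructor
  · intro h
    have := ZFSet.pair_inj.1 h
    exact Cond.ext this.1 this.2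
  · rintro rfl; rfl

/-- The class of the conditions. -/
def Pcl : Set ZFSet.{u} := {z | ∃ c : Cond.{u}, z = code c}

/-- The order of the conditions. -/
def lecl : Set ZFSet.{u} := {z | ∃ c d : Cond.{u}, c ≤ d ∧ z = ZFSet.pair (code c) (code d)}

theorem pair_mem_lecl {c d : Cond.{u}} : ZFSet.pair (code c) (code d) ∈ lecl ↔ c ≤ d := by
  constructor
  · rintro ⟨c', d', h, h'⟩
    have := ZFSet.pair_inj.1 h'
    rw [code_inj.1 this.1, code_inj.1 this.2]
    exact h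
  · intro h
    exact ⟨c, d, h, rfl⟩

open Classical in
/-- The automorphism given by the set `e`. -/
noncomputable def autF (e z : ZFSet.{u}) : ZFSet.{u} :=
  if h : ∃ c : Cond.{u}, z = code c then code (flip e h.choose) else z

theorem autF_code (e : ZFSet.{u}) (c : Cond.{u}) : autF e (code c) = code (flip e c) := by
  have h : ∃ c' : Cond.{u}, code c = code c' := ⟨c, rfl⟩
  rw [autF, dif_pos h, ← code_inj.1 h.choose_spec]

/-- The sets `e` which are disjoint from the columns with index in `b`. -/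
def baseF (b : ZFSet.{u}) : Set ZFSet.{u} := {e | ∀ x ∈ e, ¬ InCol b x}

/-- The class symmetric system. -/
noncomputable def S0 : Sys.{u} where
  P := Pcl
  le := lecl
  aut := autF
  base := baseF

/-- The filter given by the class `C`. -/
def GC (C : Set ZFSet.{u}) : Set ZFSet.{u} := {z | ∃ c : Cond.{u}, InC c C ∧ z = code c}

theorem code_mem_GC {c : Cond.{u}} {C : Set ZFSet.{u}} : code c ∈ GC C ↔ InC c C := by
  constructor
  · rintro ⟨c', h, h'⟩
    rw [code_inj.1 h']; exact h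
  · intro h
    exact ⟨c, h, rfl⟩

/-- The canonical name of the set `x`. -/
noncomputable def chk (x : ZFSet.{u}) : ZFSet.{u} :=
  ZFSet.range (fun y : {y : ZFSet.{u} // y ∈ x} => ZFSet.pair (chk y.1) (code ctop))
termination_by x.rank
decreasing_by exact ZFSet.rank_lt_of_mem y.2

theorem mem_chk {x z : ZFSet.{u}} :
    z ∈ chk x ↔ ∃ y ∈ x, z = ZFSet.pair (chk y) (code ctop) := by
  rw [chk, ZFSet.mem_range]
  constructor
  · rintro ⟨⟨y, hy⟩, rfl⟩
    exact ⟨y, hy, rfl⟩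
  · rintro ⟨y, hy, rfl⟩
    exact ⟨⟨y, hy⟩, rfl⟩

/-! ## Semantic forcing and Borel statements -/

/-- The condition `c` forces the statement `S` about classes `C`: there is a family of dense sets,
indexed by the sets, such that `S` holds for every class that agrees with `c` and meets these
dense sets. -/
def Forc (c : Cond.{u}) (S : Set ZFSet.{u} → Prop) : Prop :=
  ∃ D : ZFSet.{u} → Set Cond.{u}, (∀ x, Dense (D x)) ∧
    ∀ C, InC c C → (∀ x, Met C (D x)) → S C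

/-- The Borel statements about classes. -/
inductive Bor : (Set ZFSet.{u} → Prop) → Prop
  | const (c : Prop) : Bor (fun _ => c)
  | atom (x : ZFSet.{u}) : Bor (fun C => x ∈ C)
  | neg {S : Set ZFSet.{u} → Prop} : Bor S → Bor (fun C => ¬ S C)
  | all {S : ZFSet.{u} → Set ZFSet.{u} → Prop} : (∀ x, Bor (S x)) → Bor (fun C => ∀ x, S x C)

/-- The operators on classes. -/
abbrev Op : Type (u + 1) := Set ZFSet.{u} → Set ZFSet.{u}

/-- Borel operators. -/
def BorOp (Φ : Op.{u}) : Prop := ∀ z, Bor (fun C => z ∈ Φ C)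

/-! ## The operations used in the main argument -/

/-- `q` forces that the value of the name `z` is the set `t` (for the preorder `le`). -/
def evF (le : Set ZFSet.{u}) (z t q : ZFSet.{u}) : Prop :=
  (∀ w r, ∀ h : ZFSet.pair w r ∈ z, ∀ q', ZFSet.pair q' q ∈ le → ZFSet.pair q' r ∈ le →
    ∃ q'', ZFSet.pair q'' q' ∈ le ∧ ∃ s, s ∈ t ∧ evF le w s q'') ∧
  (∀ s, s ∈ t → ∀ q', ZFSet.pair q' q ∈ le →
    ∃ q'', ZFSet.pair q'' q' ∈ le ∧ ∃ w r, ∃ h : ZFSet.pair w r ∈ z,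
      ZFSet.pair q'' r ∈ le ∧ evF le w s q'')
termination_by z.rank
decreasing_by
  all_goals
    refine ((ZFSet.rank_lt_of_mem (ZFSet.mem_singleton.2 rfl)).trans
      (ZFSet.rank_lt_of_mem ?_)).trans (ZFSet.rank_lt_of_mem h)
    simp [ZFSet.pair]

/-- The class of the conditions `q` for which there is `(z, r) ∈ Γ` with `q ≤ r` such that
`q` forces that the value of `z` is `v`. -/
def X5 (Q le Γ : Set ZFSet.{u}) (v : ZFSet.{u}) : Set ZFSet.{u} :=
  {q | q ∈ Q ∧ ∃ z r, ZFSet.pair z r ∈ Γ ∧ ZFSet.pair q r ∈ le ∧ evF le z v q}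

/-- The code of the condition `({x}, ∅)`. -/
def kx (x : ZFSet.{u}) : ZFSet.{u} := ZFSet.pair {x} ∅

/-- `q` forces that `kx x` is an element of the value of `Γ`. -/
def TT (Q le Γ : Set ZFSet.{u}) (q x : ZFSet.{u}) : Prop :=
  ∀ q', ZFSet.pair q' q ∈ le → ∃ q'', ZFSet.pair q'' q' ∈ le ∧ q'' ∈ X5 Q le Γ (kx x)

/-- The operations on classes used in the main argument. -/
def pwEv (k : ℕ) (v w : ZFSet.{u}) (A : ℕ → Set ZFSet.{u}) : Set ZFSet.{u} :=
  match k with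
  | 0 => {q | q ∈ A 0 ∧ ∃ s, s ∈ w ∧ evF (A 1) v s q}
  | 1 => {q | q ∈ A 0 ∧ ∃ z r, ZFSet.pair z r ∈ v ∧ ZFSet.pair q r ∈ A 1 ∧ evF (A 1) z w q}
  | 2 => {q | q ∈ A 0 ∧ (evF (A 1) v w q ∨
      (∃ z r, ZFSet.pair z r ∈ v ∧ ZFSet.pair q r ∈ A 1 ∧
        ∀ q', ZFSet.pair q' q ∈ A 1 → ∀ s, s ∈ w → ¬ evF (A 1) z s q') ∨
      (∃ s, s ∈ w ∧ ∀ q', ZFSet.pair q' q ∈ A 1 → ∀ z r, ZFSet.pair z r ∈ v →
        ZFSet.pair q' r ∈ A 1 → ¬ evF (A 1) z s q'))}
  | 3 => X5 (A 0) (A 1) (A 2) v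
  | 4 => {q | q ∈ A 0 ∧ (q ∈ A 2 ∨ ∀ q', ZFSet.pair q' q ∈ A 1 → q' ∉ A 2)}
  | 5 => {q | q ∈ A 0 ∧ ∃ x, InCol {v} x ∧ ((TT (A 0) (A 1) (A 2) q x ∧ x ∉ A 3) ∨
      ((∀ q', ZFSet.pair q' q ∈ A 1 → ¬ TT (A 0) (A 1) (A 2) q' x) ∧ x ∈ A 3))}
  | _ => {x | InCol {v} x ∧ ∃ q, ZFSet.pair q w ∈ A 1 ∧ TT (A 0) (A 1) (A 2) q x}

/-! ## Terms for the classes -/

/-- The operation symbols. -/
inductive Idx : Type (u + 1)
  | fo (n : ℕ) (φ : Fml (n + 1)) (v : Fin n → ZFSet.{u}) : Idx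
  | pw (k : ℕ) (v w : ZFSet.{u}) : Idx
  | nm : Idx
  | forc (n : ℕ) (φ : Fml n) : Idx
  | valP : Idx
  | symv (b : ZFSet.{u}) : Idx
  | restr (b : ZFSet.{u}) : Idx

/-- The terms. -/
inductive Tm : Type (u + 1)
  | cst (x : ZFSet.{u}) : Tm
  | bas (k : ℕ) : Tm
  | gen : Tm
  | ap (i : Idx.{u}) (t : ℕ → Tm) : Tm

/-- The basic classes. -/
def basC (k : ℕ) : Set ZFSet.{u} :=
  match k with
  | 0 => Pcl
  | 1 => lecl
  | 2 => {z | ∃ a ∈ (Set.univ : Set ZFSet.{u}), ∃ p ∈ Pcl,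
      z = ZFSet.pair a (ZFSet.pair p (autF a p))}
  | _ => {z | ∃ b ∈ (Set.univ : Set ZFSet.{u}), ∃ a ∈ baseF b, z = ZFSet.pair b a}

/-- The meaning of the operation symbols. -/
def Idx.ev : Idx.{u} → (ℕ → Op.{u}) → Op.{u}
  | .fo n φ v, Φ => fun C => {x | Sat Set.univ (fun k => Φ k C) φ (Fin.cons x v)}
  | .pw k v w, Φ => fun C => pwEv k v w (fun j => Φ j C)
  | .nm, Φ => fun _ => {z | ∃ (x : ZFSet.{u}) (c : Cond.{u}),
      Forc c (fun X => x ∈ Φ 0 X) ∧ z = ZFSet.pair (chk x) (code c)}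
  | .forc n φ, Φ => fun _ => {z | ∃ p ∈ Pcl, ∃ v : Fin n → ZFSet.{u},
      (∀ i, HS Set.univ S0 (v i)) ∧ z = ZFSet.pair p (tup v) ∧
        Forces Set.univ S0 (fun k => Φ k ∅) φ v p}
  | .valP, Φ => fun C => valC (GC C) (Φ 0 ∅)
  | .symv b, Φ => fun C => {x | ∃ c : Cond.{u}, InC c C ∧ rs b c = c ∧
      Forc c (fun X => x ∈ valC (GC X) (Φ 0 ∅))}
  | .restr b, Φ => fun C => Φ 0 (rsS b C)

/-- The meaning of the terms. -/
def Tm.ev : Tm.{u} → Op.{u}
  | .cst x => fun _ => {y | y ∈ x}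
  | .bas k => fun _ => basC k
  | .gen => fun C => C
  | .ap i t => i.ev (fun j => (t j).ev)

/-- The model. -/
def M0 : Model.{u} where
  sets := Set.univ
  classes := {X | ∃ t : Tm.{u}, X = t.ev ∅}

/-- The symmetric extension, in another form. -/
def N0 (C : Set ZFSet.{u}) : Model.{u} where
  sets := Set.univ
  classes := {X | ∃ (t : Tm.{u}) (b : ZFSet.{u}), X = t.ev (rsS b C)}

/-- The classes of the submodel given by the columns with index in `b`. -/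
def Wb (C : Set ZFSet.{u}) (b : ZFSet.{u}) : Set (Set ZFSet.{u}) :=
  {X | ∃ t : Tm.{u}, X = t.ev (rsS b C)}

/-- The class `C` is sufficiently generic. -/
structure Good (C : Set ZFSet.{u}) : Prop where
  dens : ∀ t : Tm.{u}, (∀ c : Cond.{u}, ∃ d, d ≤ c ∧ code d ∈ t.ev ∅) →
    ∃ d : Cond.{u}, InC d C ∧ code d ∈ t.ev ∅
  truth : ∀ (t : Tm.{u}) (x : ZFSet.{u}),
    x ∈ t.ev C ↔ ∃ c : Cond.{u}, InC c C ∧ Forc c (fun X => x ∈ t.ev X)
  col : ∀ (t : Tm.{u}) (b i : ZFSet.{u}), i ∉ b → rsS {i} C ≠ t.ev (rsS b C)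

end Pool.Agent.H634.CS
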