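import Mathlib

/-!
# Class symmetric systems: definitions

Transitive models of Goedel-Bernays class theory, names and their values, class symmetric systems,
their symmetric forcing relation, generic filters, symmetric extensions and class forcing
extensions.

The universe of sets is `ZFSet.{u}`; a model consists of a class `sets` of sets and of a family
`classes` of subclasses of `sets`.
-/

set_option linter.all false

namespace Pool.Agent.H634.CS

universe u

open ZFSet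

/-! ## Formulas and models -/

/-- First-order formulas with `n` free variables (they range over sets) and with the predicates
`cls k`, `k = 0, 1, ...`, which stand for class parameters. There is no quantification over
classes. The quantifier `all` binds the variable `0`. -/
inductive Fml : ℕ → Type
  | mem {n : ℕ} (i j : Fin n) : Fml n
  | eq {n : ℕ} (i j : Fin n) : Fml n
  | cls {n : ℕ} (k : ℕ) (i : Fin n) : Fml n
  | neg {n : ℕ} (φ : Fml n) : Fml n
  | and {n : ℕ} (φ ψ : Fml n) : Fml n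
  | all {n : ℕ} (φ : Fml (n + 1)) : Fml n

/-- Truth of a formula in the structure with the universe `U`, where the predicate `cls k` is
interpreted by the class `A k`. -/
def Sat (U : Set ZFSet.{u}) (A : ℕ → Set ZFSet.{u}) :
    {n : ℕ} → Fml n → (Fin n → ZFSet.{u}) → Prop
  | _, .mem i j, v => v i ∈ v j
  | _, .eq i j, v => v i = v j
  | _, .cls k i, v => v i ∈ A k
  | _, .neg φ, v => ¬ Sat U A φ v
  | _, .and φ ψ, v => Sat U A φ v ∧ Sat U A ψ v
  | _, .all φ, v => ∀ x ∈ U, Sat U A φ (Fin.cons x v)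

/-- A two-sorted structure: a class of sets and a family of classes. -/
structure Model where
  /-- the sets -/
  sets : Set ZFSet.{u}
  /-- the classes -/
  classes : Set (Set ZFSet.{u})

/-- A transitive model of Goedel-Bernays class theory without choice, with first-order class
comprehension. (The class comprehension scheme allows set parameters `v` and class parameters
`A`; extensionality and foundation hold because the model is transitive.) -/
structure Model.IsGB (M : Model.{u}) : Prop where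
  trans : ∀ x ∈ M.sets, ∀ y ∈ x, y ∈ M.sets
  sub : ∀ A ∈ M.classes, A ⊆ M.sets
  ofSet : ∀ x ∈ M.sets, {y | y ∈ x} ∈ M.classes
  omega : ZFSet.omega ∈ M.sets
  pair : ∀ x ∈ M.sets, ∀ y ∈ M.sets, ({x, y} : ZFSet.{u}) ∈ M.sets
  union : ∀ x ∈ M.sets, (⋃₀ x : ZFSet.{u}) ∈ M.sets
  power : ∀ x ∈ M.sets, ∃ y ∈ M.sets, ∀ z ∈ M.sets, z ∈ y ↔ z ⊆ x
  repl : ∀ F ∈ M.classes, (∀ x y z, ZFSet.pair x y ∈ F → ZFSet.pair x z ∈ F → y = z) →
    ∀ a ∈ M.sets, ∃ b ∈ M.sets, ∀ y, y ∈ b ↔ ∃ x ∈ a, ZFSet.pair x y ∈ F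
  compr : ∀ (n : ℕ) (φ : Fml (n + 1)) (A : ℕ → Set ZFSet.{u}) (v : Fin n → ZFSet.{u}),
    (∀ k, A k ∈ M.classes) → (∀ i, v i ∈ M.sets) →
    {x | x ∈ M.sets ∧ Sat M.sets A φ (Fin.cons x v)} ∈ M.classes

/-! ## Names -/

/-- Recursion on names: `recN c g x = {g (recN c g y) p | pair y p ∈ x, c p}`,
see `mem_recN`. -/
noncomputable def recN (c : ZFSet.{u} → Prop) (g : ZFSet.{u} → ZFSet.{u} → ZFSet.{u})
    (x : ZFSet.{u}) : ZFSet.{u} :=
  ZFSet.range (fun z : {z : {z : ZFSet.{u} // z ∈ x} //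
      ∃ y : ZFSet.{u}, ∃ p : ZFSet.{u}, z.1 = ZFSet.pair y p ∧ c p} =>
    g (recN c g z.2.choose) z.2.choose_spec.choose)
termination_by x.rank
decreasing_by
  have h := z.2.choose_spec.choose_spec.1
  have h2 := z.1.2
  rw [h] at h2
  refine ((ZFSet.rank_lt_of_mem (ZFSet.mem_singleton.2 rfl)).trans
    (ZFSet.rank_lt_of_mem ?_)).trans (ZFSet.rank_lt_of_mem h2)
  simp [ZFSet.pair]

theorem mem_recN {c : ZFSet.{u} → Prop} {g : ZFSet.{u} → ZFSet.{u} → ZFSet.{u}}
    {x z : ZFSet.{u}} :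
    z ∈ recN c g x ↔ ∃ y p, ZFSet.pair y p ∈ x ∧ c p ∧ z = g (recN c g y) p := by
  rw [recN, ZFSet.mem_range]
  constructor
  · rintro ⟨⟨⟨w, hw⟩, h⟩, hz⟩
    have h1 := h.choose_spec.choose_spec
    refine ⟨h.choose, h.choose_spec.choose, ?_, h1.2, hz.symm⟩
    have := h1.1
    simp only at this
    rw [← this]; exact hw
  · rintro ⟨y, p, hyp, hc, rfl⟩
    have h : ∃ y' : ZFSet.{u}, ∃ p' : ZFSet.{u}, ZFSet.pair y p = ZFSet.pair y' p' ∧ c p' :=
      ⟨y, p, rfl, hc⟩
    refine ⟨⟨⟨ZFSet.pair y p, hyp⟩, h⟩, ?_⟩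
    have h1 := ZFSet.pair_inj.1 h.choose_spec.choose_spec.1
    exact congrArg₂ (fun a b => g (recN c g a) b) h1.1.symm h1.2.symm

/-- The value of a name: `val G x = {val G y | (y, p) ∈ x, p ∈ G}`. -/
noncomputable def val (G : Set ZFSet.{u}) (x : ZFSet.{u}) : ZFSet.{u} :=
  recN (fun p => p ∈ G) (fun r _ => r) x

theorem mem_val {G : Set ZFSet.{u}} {x z : ZFSet.{u}} :
    z ∈ val G x ↔ ∃ y p, ZFSet.pair y p ∈ x ∧ p ∈ G ∧ z = val G y := mem_recN

/-- The value of a class name. -/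
def valC (G Γ : Set ZFSet.{u}) : Set ZFSet.{u} :=
  {z | ∃ y p, ZFSet.pair y p ∈ Γ ∧ p ∈ G ∧ z = val G y}

/-- The action of a map `f` of the conditions on the names:
`act f x = {(act f y, f p) | (y, p) ∈ x}`. -/
noncomputable def act (f : ZFSet.{u} → ZFSet.{u}) (x : ZFSet.{u}) : ZFSet.{u} :=
  recN (fun _ => True) (fun r p => ZFSet.pair r (f p)) x

theorem mem_act {f : ZFSet.{u} → ZFSet.{u}} {x z : ZFSet.{u}} :
    z ∈ act f x ↔ ∃ y p, ZFSet.pair y p ∈ x ∧ z = ZFSet.pair (act f y) (f p) := by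
  unfold act
  rw [mem_recN]
  simp

/-- The action of a map of the conditions on the class names. -/
def actC (f : ZFSet.{u} → ZFSet.{u}) (Γ : Set ZFSet.{u}) : Set ZFSet.{u} :=
  {z | ∃ y p, ZFSet.pair y p ∈ Γ ∧ z = ZFSet.pair (act f y) (f p)}

/-- The names for the conditions in `P`. -/
inductive IsName (P : Set ZFSet.{u}) : ZFSet.{u} → Prop
  | mk (x : ZFSet.{u}) (h : ∀ z ∈ x, ∃ y p, p ∈ P ∧ z = ZFSet.pair y p)
      (h' : ∀ y p, ZFSet.pair y p ∈ x → IsName P y) : IsName P x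

/-! ## Preorders, generic filters and class forcing extensions -/

/-- `le` (a class of ordered pairs) is a preorder on `P`. -/
structure IsPre (P le : Set ZFSet.{u}) : Prop where
  dom : ∀ z ∈ le, ∃ p ∈ P, ∃ q ∈ P, z = ZFSet.pair p q
  refl : ∀ p ∈ P, ZFSet.pair p p ∈ le
  trans : ∀ p q r, ZFSet.pair p q ∈ le → ZFSet.pair q r ∈ le → ZFSet.pair p r ∈ le

/-- `G` is a filter in `P` that meets every class of `M` which is a dense subclass of `P`. -/
structure IsGeneric (M : Model.{u}) (P le G : Set ZFSet.{u}) : Prop where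
  sub : G ⊆ P
  nonempty : G.Nonempty
  up : ∀ p ∈ G, ∀ q, ZFSet.pair p q ∈ le → q ∈ G
  dir : ∀ p ∈ G, ∀ q ∈ G, ∃ r ∈ G, ZFSet.pair r p ∈ le ∧ ZFSet.pair r q ∈ le
  meets : ∀ D ∈ M.classes, D ⊆ P → (∀ p ∈ P, ∃ q ∈ D, ZFSet.pair q p ∈ le) → ∃ p ∈ D, p ∈ G

/-- The extension `N[H]` of the model `N` by a subclass `H` of the class `Q` of conditions: the
sets are the values of the names in `N`, the classes are the values of the class names which are
classes of `N`. -/
def classExt (N : Model.{u}) (Q H : Set ZFSet.{u}) : Model.{u} where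
  sets := {z | ∃ x ∈ N.sets, IsName Q x ∧ z = val H x}
  classes := {X | ∃ Γ ∈ N.classes, (∀ z ∈ Γ, ∃ y q, IsName Q y ∧ q ∈ Q ∧ z = ZFSet.pair y q) ∧
    X = valC H Γ}

/-! ## Class symmetric systems -/

/-- The data of a class symmetric system: a class `P` of conditions with a preorder `le`,
an automorphism `aut a` for each set `a`, and for each set `b` the set `base b` of the
indices `a` such that `aut a` is an element of the subgroup `H_b`. -/
structure Sys where
  P : Set ZFSet.{u}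
  le : Set ZFSet.{u}
  aut : ZFSet.{u} → ZFSet.{u} → ZFSet.{u}
  base : ZFSet.{u} → Set ZFSet.{u}

/-- `aut a` and `aut b` are the same automorphism of `P`. -/
def Sys.Same (S : Sys.{u}) (a b : ZFSet.{u}) : Prop := ∀ p ∈ S.P, S.aut a p = S.aut b p

/-- `aut c` is the composition of `aut a` and `aut b` (first `aut b`). -/
def Sys.Mul (S : Sys.{u}) (c a b : ZFSet.{u}) : Prop :=
  ∀ p ∈ S.P, S.aut c p = S.aut a (S.aut b p)

/-- A set `I` of indices gives a group of automorphisms. -/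
structure Sys.IsGroup (S : Sys.{u}) (I : Set ZFSet.{u}) : Prop where
  one : ∃ a ∈ I, ∀ p ∈ S.P, S.aut a p = p
  mul : ∀ a ∈ I, ∀ b ∈ I, ∃ c ∈ I, S.Mul c a b
  inv : ∀ a ∈ I, ∃ b ∈ I, ∀ p ∈ S.P, S.aut b (S.aut a p) = p

/-- `S` is a class symmetric system of the model `M`. -/
structure IsSys (M : Model.{u}) (S : Sys.{u}) : Prop where
  /-- the conditions and their preorder are classes -/
  P_class : S.P ∈ M.classes
  le_class : S.le ∈ M.classes
  pre : IsPre S.P S.le
  /-- the automorphisms are indexed by the sets, via one class -/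
  aut_class : {z | ∃ a ∈ M.sets, ∃ p ∈ S.P, z = ZFSet.pair a (ZFSet.pair p (S.aut a p))} ∈
    M.classes
  aut_bij : ∀ a ∈ M.sets, Set.BijOn (S.aut a) S.P S.P
  aut_le : ∀ a ∈ M.sets, ∀ p ∈ S.P, ∀ q ∈ S.P,
    ZFSet.pair (S.aut a p) (S.aut a q) ∈ S.le ↔ ZFSet.pair p q ∈ S.le
  group : S.IsGroup M.sets
  /-- the base of the filter is indexed by the sets, via one class -/
  base_class : {z | ∃ b ∈ M.sets, ∃ a ∈ S.base b, z = ZFSet.pair b a} ∈ M.classes
  base_sub : ∀ b ∈ M.sets, S.base b ⊆ M.sets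
  base_group : ∀ b ∈ M.sets, S.IsGroup (S.base b)
  /-- some member of the base is the whole group -/
  base_top : ∃ b ∈ M.sets, ∀ a ∈ M.sets, ∃ a' ∈ S.base b, S.Same a a'
  /-- any two members of the base contain a common third one -/
  base_dir : ∀ b ∈ M.sets, ∀ c ∈ M.sets, ∃ d ∈ M.sets, ∀ a ∈ S.base d,
    (∃ a' ∈ S.base b, S.Same a a') ∧ (∃ a' ∈ S.base c, S.Same a a')
  /-- normality: the conjugate of the group `H_b` by `aut a` contains some `H_c` -/
  normal : ∀ a ∈ M.sets, ∀ b ∈ M.sets, ∃ c ∈ M.sets, ∀ e ∈ S.base c, ∃ e' ∈ S.base b,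
    ∀ p ∈ S.P, S.aut e (S.aut a p) = S.aut a (S.aut e' p)

/-- The hereditarily symmetric names; `U` is the class of the sets of the model. (A group of
automorphisms belongs to the filter if it contains a member of the base.) -/
inductive HS (U : Set ZFSet.{u}) (S : Sys.{u}) : ZFSet.{u} → Prop
  | mk (x : ZFSet.{u}) (hx : x ∈ U) (h : ∀ z ∈ x, ∃ y p, p ∈ S.P ∧ z = ZFSet.pair y p)
      (hsym : ∃ b ∈ U, ∀ a ∈ S.base b, act (S.aut a) x = x)
      (h' : ∀ y p, ZFSet.pair y p ∈ x → HS U S y) : HS U S x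

/-- The class `S`-names. -/
def IsClsName (M : Model.{u}) (S : Sys.{u}) (Γ : Set ZFSet.{u}) : Prop :=
  Γ ∈ M.classes ∧ (∀ z ∈ Γ, ∃ y p, HS M.sets S y ∧ p ∈ S.P ∧ z = ZFSet.pair y p) ∧
    ∃ b ∈ M.sets, ∀ a ∈ S.base b, actC (S.aut a) Γ = Γ

/-- The symmetric extension `M[G]_S`. -/
def symExt (M : Model.{u}) (S : Sys.{u}) (G : Set ZFSet.{u}) : Model.{u} where
  sets := {z | ∃ x, HS M.sets S x ∧ z = val G x}
  classes := {X | ∃ Γ, IsClsName M S Γ ∧ X = valC G Γ}

/-! ## The symmetric forcing relation -/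

/-- `p` forces `x = y`: for every `(z, r) ∈ x`, each `q ≤ p, r` forces `z ∈ y`, and
for every `(z, r) ∈ y`, each `q ≤ p, r` forces `z ∈ x`; here `q` forces `z ∈ y` if the
conditions `q'` for which there is `(w, s) ∈ y` with `q' ≤ s` such that `q'` forces
`z = w` are dense below `q`. -/
def ForcesEq (le : Set ZFSet.{u}) (x y p : ZFSet.{u}) : Prop :=
  (∀ z r, ∀ h : ZFSet.pair z r ∈ x, ∀ q, ZFSet.pair q p ∈ le → ZFSet.pair q r ∈ le →
    ∀ q', ZFSet.pair q' q ∈ le → ∃ q'', ZFSet.pair q'' q' ∈ le ∧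
      ∃ w s, ZFSet.pair w s ∈ y ∧ ZFSet.pair q'' s ∈ le ∧ ForcesEq le z w q'') ∧
  (∀ z r, ZFSet.pair z r ∈ y → ∀ q, ZFSet.pair q p ∈ le → ZFSet.pair q r ∈ le →
    ∀ q', ZFSet.pair q' q ∈ le → ∃ q'', ZFSet.pair q'' q' ∈ le ∧
      ∃ w s, ∃ h : ZFSet.pair w s ∈ x, ZFSet.pair q'' s ∈ le ∧ ForcesEq le w z q'')
termination_by x.rank
decreasing_by
  all_goals
    refine ((ZFSet.rank_lt_of_mem (ZFSet.mem_singleton.2 rfl)).trans
      (ZFSet.rank_lt_of_mem ?_)).trans (ZFSet.rank_lt_of_mem h)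
    simp [ZFSet.pair]

/-- `p` forces `x ∈ Γ`, where `Γ` is a set name or a class name. -/
def ForcesMem (le : Set ZFSet.{u}) (x : ZFSet.{u}) (Γ : Set ZFSet.{u}) (p : ZFSet.{u}) : Prop :=
  ∀ q, ZFSet.pair q p ∈ le → ∃ q', ZFSet.pair q' q ∈ le ∧
    ∃ w s, ZFSet.pair w s ∈ Γ ∧ ZFSet.pair q' s ∈ le ∧ ForcesEq le x w q'

/-- The symmetric forcing relation, by recursion on the formula: `Forces U S Γ φ v p` means that
`p` forces `φ` for the hereditarily symmetric set names `v` and the class names `Γ`. -/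
def Forces (U : Set ZFSet.{u}) (S : Sys.{u}) (Γ : ℕ → Set ZFSet.{u}) :
    {n : ℕ} → Fml n → (Fin n → ZFSet.{u}) → ZFSet.{u} → Prop
  | _, .mem i j, v, p => ForcesMem S.le (v i) {z | z ∈ v j} p
  | _, .eq i j, v, p => ForcesEq S.le (v i) (v j) p
  | _, .cls k i, v, p => ForcesMem S.le (v i) (Γ k) p
  | _, .neg φ, v, p => ∀ q, ZFSet.pair q p ∈ S.le → ¬ Forces U S Γ φ v q
  | _, .and φ ψ, v, p => Forces U S Γ φ v p ∧ Forces U S Γ ψ v p
  | _, .all φ, v, p => ∀ x, HS U S x → Forces U S Γ φ (Fin.cons x v) p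

/-- Codes of finite sequences. -/
def tup : {n : ℕ} → (Fin n → ZFSet.{u}) → ZFSet.{u}
  | 0, _ => ∅
  | _ + 1, v => ZFSet.pair (v 0) (tup (fun i => v i.succ))

/-- The system `S` admits forcing relations: for each first-order formula and all class
`S`-names as class parameters, the symmetric forcing relation is a class of `M`. -/
def AdmitsForcing (M : Model.{u}) (S : Sys.{u}) : Prop :=
  ∀ (n : ℕ) (φ : Fml n) (Γ : ℕ → Set ZFSet.{u}), (∀ k, IsClsName M S (Γ k)) →
    {z | ∃ p ∈ S.P, ∃ v : Fin n → ZFSet.{u}, (∀ i, HS M.sets S (v i)) ∧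
      z = ZFSet.pair p (tup v) ∧ Forces M.sets S Γ φ v p} ∈ M.classes

end Pool.Agent.H634.CS
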