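import Pool.Agent.H634.CS.Stm

/-!
# The easy leaves
-/

set_option linter.all false

namespace Pool.Agent.H634.CS

universe u

open ZFSet Set

theorem incompat (h : S_BAIRE.{u}) : S_INCOMPAT.{u} := by
  intro c d e S hc hd h1 h2
  obtain ⟨D, hD, hDS⟩ := h1
  obtain ⟨D', hD', hDS'⟩ := h2
  obtain ⟨E, hE, hEE⟩ := reindex (ι := Bool × ZFSet.{u})
    (fun z => ZFSet.pair (natV (if z.1 then 0 else 1)) z.2) (by
      intro z z' h
      have := ZFSet.pair_inj.1 h
      have h1 := natV_inj.1 this.1
      refine Prod.ext ?_ this.2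
      cases hz : z.1 <;> cases hz' : z'.1 <;> simp_all)
    (fun z => if z.1 then D z.2 else D' z.2) (by
      rintro ⟨b, x⟩
      cases b
      · simpa using hD' x
      · simpa using hD x)
  obtain ⟨C, hC, hm⟩ := h E hE e
  refine hDS' C (hC.mono hd) (fun x => ?_) (hDS C (hC.mono hc) (fun x => ?_))
  · have := hm (ZFSet.pair (natV 1) x)
    have h3 := hEE (false, x)
    simp only [Bool.false_eq_true, if_false] at h3
    rw [h3] at this
    exact this
  · have := hm (ZFSet.pair (natV 0) x)
    have h3 := hEE (true, x)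
    simp only [if_true] at h3
    rw [h3] at this
    exact this

theorem dense : S_DENSE.{u} := by
  intro c S h
  choose F hF hFS using fun d : {d : Cond.{u} // Forc d S} => d.2
  refine forc_of_family (ι := Option ({d : Cond.{u} // Forc d S} × ZFSet.{u}))
    (fun z => match z with
      | none => ∅
      | some z => {ZFSet.pair (code z.1.1) z.2}) ?_
    (fun z => match z with
      | none => {e | Forc e S ∨ ∀ r, r ≤ e → ¬ r ≤ c}
      | some z => F z.1 z.2) ?_ ?_
  · intro z z' hz
    cases z with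
    | none =>
      cases z' with
      | none => rfl
      | some z' =>
        simp only at hz
        have := ZFSet.mem_singleton.2 (rfl : ZFSet.pair (code z'.1.1) z'.2 = _)
        rw [← hz] at this
        exact absurd this (ZFSet.notMem_empty _)
    | some z =>
      cases z' with
      | none =>
        simp only at hz
        have := ZFSet.mem_singleton.2 (rfl : ZFSet.pair (code z.1.1) z.2 = _)
        rw [hz] at this
        exact absurd this (ZFSet.notMem_empty _)
      | some z' =>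
        simp only at hz
        have := ZFSet.pair_inj.1 (ZFSet.singleton_inj.1 hz)
        have h2 : z = z' := Prod.ext (Subtype.ext (code_inj.1 this.1)) this.2
        rw [h2]
  · intro z
    cases z with
    | none =>
      intro e
      by_cases he : ∃ r, r ≤ e ∧ r ≤ c
      · obtain ⟨r, hr, hrc⟩ := he
        obtain ⟨r', hr', hf⟩ := h r hrc
        exact ⟨r', hr'.trans hr, Or.inl hf⟩
      · exact ⟨e, le_refl e, Or.inr (fun r hr hrc => he ⟨r, hr, hrc⟩)⟩
    | some z => exact hF z.1 z.2
  · intro C hC hm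
    obtain ⟨e, he, heC⟩ := hm none
    simp only [Set.mem_setOf_eq] at he
    rcases he with he | he
    · exact hFS ⟨e, he⟩ C heC (fun x => hm (some (⟨e, he⟩, x)))
    · obtain ⟨r, hr, hrc, -⟩ := heC.join hC
      exact absurd hrc (he r hr)

theorem decide' (h : S_DENSE.{u}) : S_DECIDE.{u} := by
  intro S hS
  induction hS with
  | const p =>
    intro c
    refine ⟨c, le_refl c, ?_⟩
    by_cases hp : p
    · exact Or.inl (forc_of_forall (fun _ _ => hp))
    · exact Or.inr (forc_of_forall (fun _ _ => hp))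
  | atom x =>
    intro c
    by_cases hb : x ∈ c.b
    · exact ⟨c, le_refl c, Or.inr (forc_of_forall (fun C hC => hC.2 x hb))⟩
    · refine ⟨⟨insert x c.a, c.b, ?_⟩, ⟨fun y hy => ZFSet.mem_insert_iff.2 (Or.inr hy),
        fun y hy => hy⟩, Or.inl (forc_of_forall (fun C hC => hC.1 x (ZFSet.mem_insert _ _)))⟩
      intro y hy hy'
      rcases ZFSet.mem_insert_iff.1 hy with rfl | hy
      · exact hb hy'
      · exact c.disj y hy hy'
  | neg _ ih =>
    intro c
    obtain ⟨d, hd, h1 | h1⟩ := ih c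
    · exact ⟨d, hd, Or.inr (h1.imp (fun C _ hS hn => hn hS))⟩
    · exact ⟨d, hd, Or.inl h1⟩
  | @all S _ ih =>
    intro c
    by_cases hx : ∃ x, ∃ d, d ≤ c ∧ Forc d (fun C => ¬ S x C)
    · obtain ⟨x, d, hd, hf⟩ := hx
      exact ⟨d, hd, Or.inr (hf.imp (fun C _ hn hall => hn (hall x)))⟩
    · refine ⟨c, le_refl c, Or.inl (Forc.all (fun x => h c _ (fun d hd => ?_)))⟩
      obtain ⟨e, he, h1 | h1⟩ := ih x d
      · exact ⟨e, he, h1⟩
      · exact absurd ⟨x, e, he.trans hd, h1⟩ hx

theorem flip' : S_FLIP.{u} := by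
  intro e c S h
  obtain ⟨D, hD, hDS⟩ := h
  refine ⟨fun x => {d | flip e d ∈ D x}, fun x d => ?_, fun C hC hm => ?_⟩
  · obtain ⟨d', hd', h1⟩ := hD x (flip e d)
    refine ⟨flip e d', ?_, ?_⟩
    · have := flip_le (e := e) hd'
      rwa [flip_flip] at this
    · simpa only [Set.mem_setOf_eq, flip_flip] using h1
  · refine hDS _ ?_ (fun x => ?_)
    · have := inC_flip (e := e) hC
      rwa [flip_flip] at this
    · obtain ⟨d, hd, hdC⟩ := hm x
      exact ⟨flip e d, hd, inC_flip hdC⟩

theorem generic : S_GENERIC.{u} := by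
  intro C hC
  refine ⟨?_, ⟨code ctop, code_mem_GC.2 (inC_ctop C)⟩, ?_, ?_, ?_⟩
  · rintro z ⟨c, -, rfl⟩
    exact ⟨c, rfl⟩
  · rintro p ⟨c, hc, rfl⟩ q hq
    obtain ⟨c', d', h, h'⟩ := hq
    have := ZFSet.pair_inj.1 h'
    rw [this.2]
    refine code_mem_GC.2 (InC.mono hc ?_)
    rw [code_inj.1 this.1]
    exact h
  · rintro p ⟨c, hc, rfl⟩ q ⟨d, hd, rfl⟩
    obtain ⟨r, h1, h2, h3⟩ := hc.join hd
    exact ⟨code r, code_mem_GC.2 h3, pair_mem_lecl.2 h1, pair_mem_lecl.2 h2⟩
  · rintro D ⟨t, rfl⟩ hDP hD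
    obtain ⟨d, h1, h2⟩ := hC.dens t (fun c => by
      obtain ⟨q, hq, hqc⟩ := hD (code c) ⟨c, rfl⟩
      obtain ⟨d, rfl⟩ := hDP hq
      exact ⟨d, pair_mem_lecl.1 hqc, hq⟩)
    exact ⟨code d, h2, code_mem_GC.2 h1⟩

theorem bev (h1 : S_BOP1.{u}) (h2 : S_BOP2.{u}) (h3 : S_BOP3.{u}) : S_BEV.{u} := by
  intro t
  induction t with
  | cst x => exact borOp_const _
  | bas k => exact borOp_const _
  | gen => exact borOp_id
  | ap i t ih =>
    cases i with
    | fo n φ v =>
      intro z
      exact h1.2 (fun k => (t k).ev) ih _ φ (Fin.cons z v)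
    | pw k v w => exact h3 (fun k => (t k).ev) ih k v w
    | nm => exact borOp_const _
    | forc n φ => exact borOp_const _
    | valP => exact h2.2.1 _
    | symv b =>
      have := h2.2.2 (fun x c => rs b c = c ∧ Forc c (fun X => x ∈ valC (GC X) ((t 0).ev ∅)))
      exact this
    | restr b =>
      intro z
      exact h1.1 _ (ih 0 z) b

end Pool.Agent.H634.CS
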