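import Pool.Agent.H634.CS.Asm
import Pool.Agent.H634.CS.Leaf0
import Pool.Agent.H634.CS.CS_BAIRE
import Pool.Agent.H634.CS.CS_BOP12
import Pool.Agent.H634.CS.CS_BOP3
import Pool.Agent.H634.CS.CS_EXGEN
import Pool.Agent.H634.CS.CS_EXTA
import Pool.Agent.H634.CS.CS_EXTB
import Pool.Agent.H634.CS.CS_GB
import Pool.Agent.H634.CS.CS_GOOD
import Pool.Agent.H634.CS.CS_INJ
import Pool.Agent.H634.CS.CS_NAMES
import Pool.Agent.H634.CS.CS_NOADD
import Pool.Agent.H634.CS.CS_RESTRICT
import Pool.Agent.H634.CS.CS_SYS
import Pool.Agent.H634.CS.CS_TRUTH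

/-!
# The final theorem
-/

set_option linter.all false

namespace Pool.Agent.H634.CS

universe u

theorem final_result : Final.{u} := by
  have hdense : S_DENSE.{u} := dense
  have hdec : S_DECIDE.{u} := decide' hdense
  have hinc : S_INCOMPAT.{u} := incompat baire
  have hres : S_RESTRICT.{u} := restrict hdense hdec flip' hinc
  have hbev : S_BEV.{u} := bev bop1 bop2 bop3
  exact final (good hbev (exgen baire hdec) inj hdec hres hinc) gb sys generic names
    (exta hbev names hres) (extb names flip') (noadd truth)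

end Pool.Agent.H634.CS
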