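import Pool.Agent.H634.CS.Basic

/-!
# Project CS (MP_76c2e0_lc): the statements of the lemmas

The definitions are in `CS/Defs.lean` and `CS/Core.lean`, useful basic lemmas (closure properties
of `Forc` and `Bor`, reindexing of families) are in `CS/Basic.lean`. Each `S_XXX` below is a
self-contained lemma with its proof in the docstring.
-/

set_option linter.all false

namespace Pool.Agent.H634.CS

universe u

open ZFSet Set

/-- BAIRE. Any family of dense sets of conditions which is indexed by the sets is met by some class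
`C` which agrees with a given condition `c`.

Proof. Well-order the universe by `r x y : rank x < rank y ∨ (rank x = rank y ∧ wo x y)` (`wo` is
any well-order, `WellOrderingRel`; e.g. the inverse image of `Prod.Lex` under `x ↦ (rank x, x)`).
The `r`-predecessors of `x` are elements of the set
`A x = ZFSet.vonNeumann (succ (rank x))` (`ZFSet.mem_vonNeumann`), so
they form a small type. By well-founded recursion along `r` define `f x : Cond`: let `s` be the
condition with `s.a = c.a ∪ ⋃ {(f y).a | r y x}` and `s.b = c.b ∪ ⋃ {(f y).b | r y x}`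
(`ZFSet.iUnion` over the small type of the predecessors) if these two sets
are disjoint, and `s = c` otherwise, and let `f x` be a condition `≤ s` in `D x`.
By induction on `x`: `f x ≤ c` and `f x ≤ f y` for all `r y x` (the two sets are disjoint: any
two of the `f y`, `r y x`, are comparable by the induction hypothesis because `r` is total, and
all are `≤ c`). Let `C = {z | ∃ x, z ∈ (f x).a}`. Then `C` agrees with all `f x`: if
`z ∈ (f x).b` and `z ∈ (f y).a`, then the larger one of `f x`, `f y` (in the order `r` of the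
indices) contradicts disjointness. So `C` agrees with `c` and meets every `D x`. -/
def S_BAIRE : Prop :=
  ∀ (D : ZFSet.{u} → Set Cond.{u}), (∀ x, Dense (D x)) → ∀ c : Cond.{u},
    ∃ C : Set ZFSet.{u}, InC c C ∧ ∀ x, Met C (D x)

/-- DENSE. If the conditions that force `S` are dense below `c`, then `c` forces `S`.

Proof. For each `d` with `Forc d S` let `F d : ZFSet → Set Cond` be a family of dense sets which
witnesses it (`choose`). Use `forc_of_family` with the index type
`ι = Option ({d : Cond // Forc d S} × ZFSet)` and the injection `none ↦ ∅`,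
`some (d, x) ↦ {pair (code d) x}` (or any other), and the dense sets
`none ↦ {e | Forc e S ∨ ∀ r, r ≤ e → ¬ r ≤ c}` (dense by the hypothesis: given `e`, if some `r ≤ e` is
`≤ c`, then there is `r' ≤ r` which forces `S`; else `e` itself is in it),
`some (d, x) ↦ F d x`. If `C` agrees with `c` and meets all of them, then some `e` agrees with
`C`, and `e` is compatible with `c` (`InC.join`), so `Forc e S`, and `C` meets all `F e x`, so
`S C`. -/
def S_DENSE : Prop :=
  ∀ (c : Cond.{u}) (S : Set ZFSet.{u} → Prop),
    (∀ d, d ≤ c → ∃ e, e ≤ d ∧ Forc e S) → Forc c S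

/-- INCOMPAT. Two compatible conditions do not force contradictory statements.

Proof. Let `D`, `D'` be the two families of dense sets. Use `reindex` with `ι = Bool × ZFSet` to
put the two families into one, and BAIRE (the hypothesis `S_BAIRE`) for the common extension
`e`: this gives a class `C` that agrees with `e`, hence with `c` and `d`, and meets all the
dense sets; so `S C` and `¬ S C`. -/
def S_INCOMPAT : Prop :=
  ∀ (c d e : Cond.{u}) (S : Set ZFSet.{u} → Prop), e ≤ c → e ≤ d → Forc c S →
    Forc d (fun C => ¬ S C) → False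

/-- DECIDE. Every Borel statement is decided by an extension of any given condition.

Proof. By induction on `Bor S`, using `S_DENSE`. `const p`: `c` itself decides
(`forc_of_forall`). `atom x`: if `x ∈ c.a`, then `c` forces `x ∈ C`; if `x ∈ c.b`, then `c`
forces `x ∉ C`; else the condition `⟨insert x c.a, c.b, _⟩` is `≤ c` and forces `x ∈ C`
(`forc_of_forall`).
`neg`: interchange the two cases (`Forc.imp` for `S → ¬ ¬ S`). `all`: if there are `d ≤ c` and
`x` such that `Forc d (fun C => ¬ S x C)`, then `d` forces `¬ ∀ x, S x C` (`Forc.imp`). Otherwise, for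
each `x`, below each `d ≤ c` there is, by the induction hypothesis, `e ≤ d` that decides
`S x`, so `e` forces `S x` (as `e ≤ c`); by `S_DENSE` `c` forces `S x` for all `x`, and by `Forc.all` `c`
forces `∀ x, S x C`. -/
def S_DECIDE : Prop :=
  ∀ (S : Set ZFSet.{u} → Prop), Bor S → ∀ c : Cond.{u},
    ∃ d, d ≤ c ∧ (Forc d S ∨ Forc d (fun C => ¬ S C))

/-- FLIP. Flips of forced statements.

Proof. If `D` witnesses `Forc c S`, then the family `D' x = {d | flip e d ∈ D x}` witnesses
`Forc (flip e c) (fun C => S (flipS e C))`: `D' x` is dense (given `d`, take an extension in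
`D x` of `flip e d` and flip it back, `flip_flip`, `flip_le`). If
`C` agrees with `flip e c` and meets all `D' x`, then `flipS e C` agrees with `c`
(`inC_flip`, `flip_flip`, `flipS_flipS`) and meets all `D x`. -/
def S_FLIP : Prop :=
  ∀ (e : ZFSet.{u}) (c : Cond.{u}) (S : Set ZFSet.{u} → Prop), Forc c S →
    Forc (flip e c) (fun C => S (flipS e C))

/-- RESTRICT. If a Borel statement `S` is invariant under the flips by the sets which are disjoint from
the columns with index in `b`, and `c` forces `S`, then the restriction `rs b c` forces `S`.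

Proof. Suppose not. By `S_DENSE` there is `d ≤ rs b c` such that no `r ≤ d` forces `S`, and by
`S_DECIDE` there is `d' ≤ d` that decides `S`; so `Forc d' (¬ S)`. Let `e` be the set of all
`x` where `c` and `d'` disagree: `e = sep (fun x => (x ∈ c.a ∧ x ∈ d'.b) ∨ (x ∈ c.b ∧ x ∈ d'.a))
(c.a ∪ c.b)`. As `d' ≤ rs b c`, no element of `e` is in a column with index in `b` (an
`x ∈ c.a` with `InCol b x` is in `(rs b c).a`, hence in `d'.a`, so not in `d'.b`), so `e ∈ baseF b`.
By `S_FLIP` `flip e d'` forces `fun C => ¬ S (flipS e C)`, which is equivalent to `¬ S C`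
(`Forc.congr`). The conditions `flip e d'` and `c` are compatible
(membership computation with `mem_flip_a`, `mem_flip_b`; `Cond.join`). This contradicts `S_INCOMPAT`. -/
def S_RESTRICT : Prop :=
  ∀ (S : Set ZFSet.{u} → Prop), Bor S → ∀ b : ZFSet.{u},
    (∀ e ∈ baseF b, ∀ C, S (flipS e C) ↔ S C) → ∀ c : Cond.{u}, Forc c S → Forc (rs b c) S

/-- EXGEN. Existence of sufficiently generic classes: for families of Borel statements and of dense
sets whose index type injects into the sets.

Proof (from `S_BAIRE` and `S_DECIDE`). For all `i`, `d` with `Forc d (S i)` choose a witnessing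
family of dense sets, and also for all `i`, `d` with `Forc d (¬ S i)`. Apply `S_BAIRE` to the
(reindexed, `reindex`) family consisting of: the `D i`; the dense sets
`{d | Forc d (S i) ∨ Forc d (¬ S i)}` (dense by `S_DECIDE`); all members of the chosen
witnessing families. The index type is for example
`(ι ⊕ ι) ⊕ ((ι × Cond × Bool) × ZFSet)`, which injects into the sets by means of `f`, `code`,
`ZFSet.pair` and tags (e.g. `natV`). (For `(i, d)` such that the statement is not forced use the dense
set `Set.univ`.) If `C` meets them all: if `S i C`, then `C` agrees with some `d` that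
decides `S i`; `Forc d (¬ S i)` would give `¬ S i C`; so `Forc d (S i)`. Conversely, if `C`
agrees with `d` and `Forc d (S i)`, then `S i C`. -/
def S_EXGEN : Prop :=
  ∀ (ι : Type (u + 1)) (f : ι → ZFSet.{u}), Function.Injective f →
    ∀ (S : ι → Set ZFSet.{u} → Prop), (∀ i, Bor (S i)) →
    ∀ (D : ι → Set Cond.{u}), (∀ i, Dense (D i)) → ∀ c : Cond.{u},
    ∃ C : Set ZFSet.{u}, InC c C ∧ (∀ i, Met C (D i)) ∧
      ∀ i, (S i C ↔ ∃ d, InC d C ∧ Forc d (S i))

/-- BOP1. Closure properties of the Borel operators, part 1: restriction and first-order formulas.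

Proof. First: by induction on `Bor S`; in the atomic case `x ∈ rsS b C ↔ x ∈ C ∧ InCol b x`.
Second: by induction on `φ` (`Sat` is defined by recursion; the quantifier `∀ x ∈ univ` is
`Bor.all`). -/
def S_BOP1 : Prop :=
  (∀ (S : Set ZFSet.{u} → Prop), Bor S → ∀ b : ZFSet.{u}, Bor (fun C => S (rsS b C))) ∧
  (∀ (A : ℕ → Op.{u}), (∀ k, BorOp (A k)) → ∀ (n : ℕ) (φ : Fml n) (v : Fin n → ZFSet.{u}),
    Bor (fun C => Sat Set.univ (fun k => A k C) φ v))

/-- BOP2. Closure properties of the Borel operators, part 2: values of names.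

Proof. First: by induction on `y` (`ZFSet.inductionOn` does not suffice, use induction on the rank
of `y`), for all `z`: `z = val (GC C) y` iff for all `w`: `w ∈ z` iff there are `y', p` with
`pair y' p ∈ y`, `p ∈ GC C` and `w = val (GC C) y'` (`mem_val`, extensionality). The statement
`p ∈ GC C` is Borel: if `p = code c` it is equivalent to `InC c C` (`code_mem_GC`, `bor_InC`), and if `p` is not of
this form it is false. Use `Bor.all`, `Bor.iff`, `Bor.ex`, `Bor.and`, `Bor.const`. Second:
unfold `valC` and use the first part. Third: `∃ c : Cond` is `Bor.exι code code_injective`. -/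
def S_BOP2 : Prop :=
  (∀ y z : ZFSet.{u}, Bor (fun C => z = val (GC C) y)) ∧
  (∀ Γ : Set ZFSet.{u}, BorOp (fun C => valC (GC C) Γ)) ∧
  (∀ R : ZFSet.{u} → Cond.{u} → Prop, BorOp (fun C => {x | ∃ c : Cond.{u}, InC c C ∧ R x c}))

/-- BOP3. Closure properties of the Borel operators, part 3: the operations of the main argument.

Proof. First prove by induction on the rank of `z` that `fun C => evF (A C) z t q` is Borel if
`A` is a Borel operator (for all `t`, `q`): rewrite with the equation of `evF` (`evF.eq_1` or `rw [evF]` under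
`Bor.congr`) and use `Bor.and`, `Bor.all`, `Bor.pall`, `Bor.pex`, `Bor.ex`, `Bor.imp`. Then unfold
`pwEv`, `X5`, `TT` in the seven cases. -/
def S_BOP3 : Prop :=
  ∀ (A : ℕ → Op.{u}), (∀ k, BorOp (A k)) → ∀ (k : ℕ) (v w : ZFSet.{u}),
    BorOp (fun C => pwEv k v w (fun j => A j C))

/-- INJ. The terms can be coded by sets.

Proof. (1) `Fml n` injects into `ℕ` for all `n`: define `g : {n : ℕ} → Fml n → ℕ` by recursion,
for example `mem i j ↦ pair 0 (pair i j)`, `eq i j ↦ pair 1 (pair i j)`,
`cls k i ↦ pair 2 (pair k i)`, `neg φ ↦ pair 3 (g φ)`, `and φ ψ ↦ pair 4 (pair (g φ) (g ψ))`,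
`all φ ↦ pair 5 (g φ)` (`Nat.pair`), injective for each `n` by induction.
(2) `natV` is an injection of `ℕ` into the sets (`natV_inj`). (3) Infinite sequences
`v : ℕ → ZFSet` inject into the sets: `v ↦ ZFSet.range (fun n : ℕ => pair (natV n) (v n))`.
(4) Finite sequences `v : Fin n → ZFSet`: `tup v`, or extend by `∅` and use (3).
(5) `Idx` injects into the sets: `fo n φ v ↦ pair (natV 0) (pair (natV n) (pair (natV (g φ))
(seq v)))`, and so on with the tags `natV 1`, ... (6) `Tm` injects into the sets: by
recursion, `cst x ↦ pair (natV 0) x`, `bas k ↦ pair (natV 1) (natV k)`,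
`gen ↦ pair (natV 2) ∅`, `ap i t ↦ pair (natV 3) (pair (code of i) (code of the sequence of the
codes of the t j))`; injective by induction. -/
def S_INJ : Prop := ∃ f : Tm.{u} → ZFSet.{u}, Function.Injective f

/-- NAMES. Flips of names and canonical names.

Proof. (1) By induction on the rank of the name `x`: `w ∈ val (GC (flipS e C)) (act (autF e) x)`
iff there are `y', p'` with `pair y' p' ∈ act (autF e) x`, `p' ∈ GC (flipS e C)`,
`w = val _ y'` (`mem_val`), iff there is `pair y p ∈ x` with `autF e p ∈ GC (flipS e C)` and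
`w = val _ (act (autF e) y) = val (GC C) y` (`mem_act`, induction hypothesis); `p = code c` as `x` is a
name, `autF_code`, `code_mem_GC`, `inC_flip_iff`. (2) the same for class names. (3) by induction on `x`,
`mem_act`, `mem_chk`, `autF_code`, and `flip e ctop = ctop`. (4) by induction on `x`, `mem_val`,
`mem_chk`; `code ctop ∈ GC C` as `inC_ctop`. (5) by induction on `x`: `chk x` is hereditarily
symmetric (use (3)). (6) by induction on `HS`. -/
def S_NAMES : Prop :=
  (∀ (e : ZFSet.{u}) (C : Set ZFSet.{u}) (x : ZFSet.{u}), IsName Pcl x →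
    val (GC (flipS e C)) (act (autF e) x) = val (GC C) x) ∧
  (∀ (e : ZFSet.{u}) (C Γ : Set ZFSet.{u}), (∀ z ∈ Γ, ∃ y p, IsName Pcl y ∧ p ∈ Pcl ∧
    z = ZFSet.pair y p) → valC (GC (flipS e C)) (actC (autF e) Γ) = valC (GC C) Γ) ∧
  (∀ e x : ZFSet.{u}, act (autF e) (chk x) = chk x) ∧
  (∀ (C : Set ZFSet.{u}) (x : ZFSet.{u}), val (GC C) (chk x) = x) ∧
  (∀ x : ZFSet.{u}, HS Set.univ S0 (chk x)) ∧
  (∀ x : ZFSet.{u}, HS Set.univ S0 x → IsName Pcl x)

/-- TRUTH. The truth lemma for the relation `evF` and a filter `H` which is generic over `N`.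

Proof. Write `q ≤ p` for `pair q p ∈ le`. (0) Monotonicity: `evF le z t q` and `q' ≤ q` imply
`evF le z t q'` (from the definition of `evF`, without induction). (1) If `A ∈ N.classes`, then
some `q ∈ H` is in `A` (with `q ∈ Q`), or no `q' ≤ q` is in `A`: the class `pwEv 4 _ _ A'` with
`A' = (Q, le, A, ...)` (that is `{q ∈ Q | q ∈ A ∨ ∀ q' ≤ q, q' ∉ A}`) is a dense class of `N`,
so `H` meets it. [For the density: given `p ∈ Q`, if some `q' ≤ p` is in `A`, take it, it is in `Q` by
`hpre.dom`; else take `p` itself.] As `∃ x ∈ N` all the functions `A' : ℕ → Set ZFSet` have to take values in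
`N.classes`, use `Q` for the unused arguments.
Consequently, if the conditions in `A` are dense below some `q0 ∈ H`, then `H` meets `A`.
(2) Induction on the rank of `z`, for all `t`. Suppose `q0 ∈ H` and `evF le z t q0`. Show
`val H z = t`. If `pair w r ∈ z` and `r ∈ H`, take `q1 ∈ H` below `q0`, `r`. By the first clause of
`evF` the class `A = pwEv 0 w t` (`{q ∈ Q | ∃ s ∈ t, evF le w s q}`) is dense
below `q1`, so some `q ∈ H` is in `A`, so `val H w = s ∈ t` by the induction hypothesis. If
`s ∈ t`, then by the second clause the class `A = pwEv 1 z s`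
(`{q ∈ Q | ∃ (w, r) ∈ z, q ≤ r, evF le w s q}`) is dense below
`q0`, so some `q ∈ H` is in `A`, so `r ∈ H` (upward closed), `val H w = s`, so `s ∈ val H z`.
(3) Conversely suppose `val H z = t`. The class `pwEv 2 z t` of `N` is dense: let `p ∈ Q`; if
`evF le z t p` then `p` is in it. If the first clause fails, there are `pair w r ∈ z` and `q' ≤ p, r` such that
no `q'' ≤ q'` satisfies `∃ s ∈ t, evF le w s q''`; then `q'` is in the class. If the second clause
fails, there are `s ∈ t` and `q' ≤ p` such that for no `q'' ≤ q'` there is `pair w r ∈ z` with `q'' ≤ r` and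
`evF le w s q''`; then `q'` is in the class. So some `q ∈ H` is in it. In the first case we are
done. In the second case `r ∈ H`, so `val H w ∈ val H z = t`; with `s = val H w` the induction
hypothesis gives `q1 ∈ H` with `evF le w s q1`; take `q'' ∈ H` below `q`, `q1`: contradiction with
monotonicity. In the third case `s ∈ t = val H z`, so `s = val H w` with `pair w r ∈ z`,
`r ∈ H`; the induction hypothesis gives `q1 ∈ H` with `evF le w s q1`; take `q' ∈ H` below
`q`, `q1`, `r`: contradiction. -/
def S_TRUTH : Prop :=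
  ∀ (N : Model.{u}) (Q le H : Set ZFSet.{u}),
    (∀ (k : ℕ) (v w : ZFSet.{u}) (A : ℕ → Set ZFSet.{u}), (∀ j, A j ∈ N.classes) →
      pwEv k v w A ∈ N.classes) →
    Q ∈ N.classes → le ∈ N.classes → IsPre Q le → IsGeneric N Q le H →
    ∀ z t : ZFSet.{u}, val H z = t ↔ ∃ q ∈ H, evF le z t q

/-- NOADD. The main argument: `W` is a family of classes of `N` which is closed under the
operations `pwEv`, the forcing notion `Q`, `le` and the name `Γ` are in `W`, and the column
`{x ∈ C | InCol {i} x}` of `C` is a class of `N` that is not in `W`. Then the value of `Γ` is not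
`GC C`.

Proof. Write `q ≤ p` for `pair q p ∈ le`, `X x = X5 Q le Γ (kx x)`, `T q x = TT Q le Γ q x`. Note
`kx x = code c` with `c.a = {x}`, `c.b = ∅`, so `kx x ∈ GC C ↔ x ∈ C`. (T1) If `q ∈ H` and
`T q x`, then `x ∈ C`: the class
`{q ∈ Q | q ∈ X x ∨ ∀ q' ≤ q, q' ∉ X x}` (`pwEv 4` applied to `pwEv 3`) is a dense class of
`N`, so it contains some `q1 ∈ H`; if no `q' ≤ q1` is in `X x`, take `q2 ∈ H` below `q`, `q1`; `T q x` gives
`q'' ≤ q2` in `X x`, a contradiction. So `q1 ∈ X x`: there is `pair z r ∈ Γ` with `q1 ≤ r`,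
`evF le z (kx x) q1`; so `r ∈ H` and `val H z = kx x` by `S_TRUTH`, so
`kx x ∈ valC H Γ = GC C`, so `x ∈ C`. (T2) If `x ∈ C`, then `T q x` for some `q ∈ H`:
`kx x ∈ GC C = valC H Γ`, so there is `pair z r ∈ Γ` with `r ∈ H`, `val H z = kx x`; by `S_TRUTH`
there is `q0 ∈ H` with `evF le z (kx x) q0`; take `q ∈ H` below `q0`, `r`; then all
`q' ≤ q` are in `X x` (monotonicity of `evF`; `q' ∈ Q` by `hpre.dom`), so `T q x`. (T3) `T q x` and `q' ≤ q` imply
`T q' x`. Let `D = pwEv 5 i _ (Q, le, Γ, rsS {i} C)`, a class of `N`. If `D` is dense, then some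
`q ∈ H` is in `D`, with some `x` in the column: if `T q x` and `x ∉ rsS {i} C`, this contradicts
(T1); if no `q' ≤ q` satisfies `T q' x` and `x ∈ rsS {i} C`, take `q1 ∈ H` with `T q1 x` by
(T2) and `q' ∈ H` below `q`, `q1`, which contradicts (T3). So `D` is not dense: there is
`q0 ∈ Q` such that no `q ≤ q0` is in `D`. Then `rsS {i} C = pwEv 6 i q0 (Q, le, Γ, Q)`, which is
in `W`: if `x ∈ rsS {i} C`, then, as `q0 ∉ D`, some `q' ≤ q0` satisfies `T q' x`; if `x` is in
the column and `q ≤ q0` satisfies `T q x`, then `x ∈ rsS {i} C` as `q ∉ D`. This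
contradicts the hypothesis that the column is not in `W`. -/
def S_NOADD : Prop :=
  ∀ (N : Model.{u}) (W : Set (Set ZFSet.{u})) (Q le H Γ C : Set ZFSet.{u}) (i : ZFSet.{u}),
    (∀ (k : ℕ) (v w : ZFSet.{u}) (A : ℕ → Set ZFSet.{u}), (∀ j, A j ∈ N.classes) →
      pwEv k v w A ∈ N.classes) →
    W ⊆ N.classes →
    (∀ (k : ℕ) (v w : ZFSet.{u}) (A : ℕ → Set ZFSet.{u}), (∀ j, A j ∈ W) →
      pwEv k v w A ∈ W) →
    Q ∈ W → le ∈ W → Γ ∈ W → IsPre Q le → IsGeneric N Q le H →
    rsS {i} C ∈ N.classes → rsS {i} C ∉ W → valC H Γ ≠ GC C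

/-- SYS. `S0` is a class symmetric system of `M0`.

Proof. The classes are the values of the terms `bas 0`, ..., `bas 3` (`basC`). The preorder and
the automorphisms: `pair_mem_lecl`, `autF_code`, `flip_le_iff`, `flip_flip` (each `autF e` is an
involution of `Pcl`). The group: `aut ∅` is the identity, the composition of `flip e` and
`flip e'` is the flip by the symmetric difference `(e \ e') ∪ (e' \ e)`. `baseF b` contains
`∅` and is closed under symmetric differences; `baseF ∅` consists of all sets;
`baseF (b ∪ c) ⊆ baseF b ∩ baseF c`; the group is commutative, so normality is clear (`c = b`). -/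
def S_SYS : Prop := IsSys M0.{u} S0

/-- GB. `M0` and `N0 C` are models of Goedel-Bernays class theory.

Proof. The set universe is `Set.univ`. Everything except `ofSet` and `compr` is about sets only:
for replacement take `b = ZFSet.range` of the function, defined on the subtype of the `x ∈ a` for which
there is `y` with `pair x y ∈ F` (it is small because it is contained in the type of the elements of `a`),
that chooses such a `y`. `ofSet`: the term `cst x`. `compr` for `M0`: if
`A k = (t k).ev ∅`, then the class is `(Tm.ap (.fo n φ v) t).ev ∅`. `compr` for `N0 C`: if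
`A k = (t k).ev (rsS (b k) C)`, let `b = ⋃ k, b k` (`ZFSet.iUnion`); then
`rsS (b k) (rsS b C) = rsS (b k) C`, and the class is
`(Tm.ap (.fo n φ v) (fun k => Tm.ap (.restr (b k)) (fun _ => t k))).ev (rsS b C)`. The last two
statements are proved in the same way, with `.pw k v w` instead of `.fo n φ v`. -/
def S_GB : Prop :=
  M0.{u}.IsGB ∧ (∀ C : Set ZFSet.{u}, (N0 C).IsGB) ∧
  (∀ (C : Set ZFSet.{u}) (b : ZFSet.{u}) (k : ℕ) (v w : ZFSet.{u}) (A : ℕ → Set ZFSet.{u}),
    (∀ j, A j ∈ Wb C b) → pwEv k v w A ∈ Wb C b) ∧
  (∀ (C : Set ZFSet.{u}) (k : ℕ) (v w : ZFSet.{u}) (A : ℕ → Set ZFSet.{u}),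
    (∀ j, A j ∈ (N0 C).classes) → pwEv k v w A ∈ (N0 C).classes) ∧
  (∀ (C : Set ZFSet.{u}) (b c : ZFSet.{u}), b ⊆ c → Wb C b ⊆ Wb C c)

/-- GOOD. There are sufficiently generic classes.

Proof. All the operators `t.ev` are Borel (hypothesis `hB`, proved from BOP1, BOP2, BOP3).
Apply `S_EXGEN` with `ι = Tm × ZFSet × ZFSet` (which injects into the sets by `S_INJ` and pairing),
the statements `S (t, x, y) = (x ∈ t.ev C)` and the dense sets `D (t, b, i)`, defined as follows. If
`i ∈ b`: `D = {d | code d ∈ t.ev ∅}` if this is dense, else `D = univ`. If `i ∉ b`: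
`D = E t b i := {c | ∃ x, InCol {i} x ∧ ((x ∈ c.a ∧ Forc c (x ∉ t.ev (rsS b C))) ∨
(x ∈ c.b ∧ Forc c (x ∈ t.ev (rsS b C))))}`.
`E t b i` is dense: let `p` be a condition. There is `x = pair i y` which is not in `p.a ∪ p.b` (a set does not
contain all pairs `pair i y`: e.g. take `y = p.a ∪ p.b` and use `ZFSet.rank` or well-foundedness).
The statement `S C = (x ∈ t.ev (rsS b C))` is Borel, and it is invariant under the flips by the sets in
`baseF b`, because `rsS b (flipS e C) = rsS b C`. By `S_DECIDE` some `q ≤ p` decides `S`, and by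
`S_RESTRICT` (for `S` or `¬ S`) `rs b q` decides it in the same way. Since `InCol b x` is false (`i ∉ b`), `x` is
not in `(rs b q).a ∪ (rs b q).b`. Let `r` be the union of `p` and `rs b q` (they have the common
extension `q`), and add `x` to `r.b` if `rs b q` forces `S`, and to `r.a` if `rs b q` forces `¬ S`.
The result is a condition `≤ p` in `E t b i`.
Now let `C` be the class given by `S_EXGEN`. `Good.dens`: take `b = {∅}`, `i = ∅`. `Good.truth`:
immediate. `Good.col`: `C` meets `E t b i` in `c`, with `x`. If `x ∈ c.a`, then `x ∈ rsS {i} C`,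
and `x ∉ t.ev (rsS b C)`: otherwise, by the truth property for the term
`ap (.restr b) (fun _ => t)`, some `d` agreeing with `C` forces `x ∈ t.ev (rsS b C)`, and `c` and
`d` are compatible (`InC.join`), which contradicts `S_INCOMPAT`. If `x ∈ c.b`, then
`x ∉ rsS {i} C`, and `x ∈ t.ev (rsS b C)` by the truth property for the same term. -/
def S_GOOD : Prop := ∀ c : Cond.{u}, ∃ C : Set ZFSet.{u}, InC c C ∧ Good C

/-- GENERIC. The filter `GC C` is generic over `M0` for good `C`.

Proof. Filter: `InC.mono`, `InC.join`, `inC_ctop`, `code_mem_GC`, `pair_mem_lecl`. The dense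
classes: `Good.dens`. -/
def S_GENERIC : Prop := ∀ C : Set ZFSet.{u}, Good C → IsGeneric M0.{u} S0.P S0.le (GC C)

/-- EXTA. The classes of the symmetric extension are of the form `t.ev (rsS b C)`.

Proof. `Γ = t0.ev ∅` is a class of `M0` and `actC (autF e) Γ = Γ` for all
`e ∈ baseF b`. Take `t = ap (.symv b) (fun _ => t0)`. `x ∈ valC (GC C) Γ`
iff (`Good.truth` for the term `ap .valP (fun _ => t0)`) there is `c` with `InC c C` and
`Forc c (fun X => x ∈ valC (GC X) Γ)`. This statement is Borel (`hB` for the term
`ap .valP (fun _ => t0)`) and invariant under the flips by `e ∈ baseF b`: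
`valC (GC (flipS e X)) Γ = valC (GC (flipS e X)) (actC (autF e) Γ) = valC (GC X) Γ` by
`S_NAMES` (2). So by `S_RESTRICT` also `rs b c` forces it, `rs b (rs b c) = rs b c` (`rs_rs`), and `rs b c` agrees
with `rsS b C` (`inC_rsS`, `le_rs`, `InC.mono`). The converse: `inC_rsS`. -/
def S_EXTA : Prop := ∀ C Γ : Set ZFSet.{u}, Good C → IsClsName M0.{u} S0 Γ →
  ∃ (t : Tm.{u}) (b : ZFSet.{u}), valC (GC C) Γ = t.ev (rsS b C)

/-- EXTB. The classes of the form `t.ev (rsS b C)` are classes of the symmetric extension.

Proof. Let `Γ = (ap .nm (fun _ => ap (.restr b) (fun _ => t))).ev ∅ =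
{pair (chk x) (code c) | Forc c (fun X => x ∈ t.ev (rsS b X))}`. It is a class name: the names
`chk x` are in HS (`S_NAMES` (5)), and `actC (autF e) Γ = Γ` for `e ∈ baseF b` because
`act (autF e) (chk x) = chk x` (`S_NAMES` (3)), `autF e (code c) = code (flip e c)`, and
`Forc (flip e c) S ↔ Forc c S` for the statement `S X = (x ∈ t.ev (rsS b X))` (`S_FLIP`,
`rsS b (flipS e X) = rsS b X`, `Forc.congr`, and `flip_flip` for the surjectivity). The value: `valC (GC C) Γ` is the class of all `x` such
that there is `c` with `InC c C` and `Forc c S` (`S_NAMES` (4), `code_mem_GC`), which is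
`t.ev (rsS b C)` by `Good.truth` for the term `ap (.restr b) (fun _ => t)`. -/
def S_EXTB : Prop := ∀ (C : Set ZFSet.{u}) (t : Tm.{u}) (b : ZFSet.{u}), Good C →
  ∃ Γ, IsClsName M0.{u} S0 Γ ∧ t.ev (rsS b C) = valC (GC C) Γ

/-- BEV. All the operators given by terms are Borel. Proof: by induction on the term. The case `ap i t` is by cases
on `i`, with BOP1, BOP2, BOP3; the values in the cases `cst`, `bas`, `nm`, `forc` do not depend on `C`
(`borOp_const`). -/
def S_BEV : Prop := ∀ t : Tm.{u}, BorOp t.ev

end Pool.Agent.H634.CS
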